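import Pool.Agent.H84R3.Defs

/-! Assembly with the corrected linear inequality: the conclusion of the linear inequality is
`(a 1 - a 4) ^ 2 + (a 2 - a 3) ^ 2 ≤ 1 / 5`, which suffices for the polynomial inequality
(proof of the polynomial inequality: helper365). -/

set_option autoImplicit false

open Finset

namespace Pool.Agent.H84R3

theorem AS2_sum (f : ZMod 5 → ℝ) : ∑ j, f j = f 0 + f 1 + f 2 + f 3 + f 4 := Fin.sum_univ_five f

theorem AS2_TT (a : ZMod 5 → ℝ) : 5 * TT a = (a 0 + a 1 + a 2 + a 3 + a 4) ^ 4 +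
    4 * ((a 0 - (a 1 + a 2 + a 3 + a 4) / 4) ^ 4 +
      30 * (a 0 - (a 1 + a 2 + a 3 + a 4) / 4) ^ 2 * ((a 1 + a 4 - a 2 - a 3) / 4) ^ 2 +
      25 * ((a 1 + a 4 - a 2 - a 3) / 4) ^ 4) -
    4 * ((5 / 8 * ((a 1 - a 4) ^ 2 + (a 2 - a 3) ^ 2)) ^ 2 +
      5 * (((a 1 - a 4) ^ 2 - (a 2 - a 3) ^ 2) / 8 + (a 1 - a 4) * (a 2 - a 3) / 2) ^ 2) := by
  have t11 : (1 + 1 : ZMod 5) = 2 := rfl
  have t12 : (1 + 2 : ZMod 5) = 3 := rfl
  have t13 : (1 + 3 : ZMod 5) = 4 := rfl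
  have t14 : (1 + 4 : ZMod 5) = 0 := rfl
  have t21 : (2 + 1 : ZMod 5) = 3 := rfl
  have t22 : (2 + 2 : ZMod 5) = 4 := rfl
  have t23 : (2 + 3 : ZMod 5) = 0 := rfl
  have t24 : (2 + 4 : ZMod 5) = 1 := rfl
  have t31 : (3 + 1 : ZMod 5) = 4 := rfl
  have t32 : (3 + 2 : ZMod 5) = 0 := rfl
  have t33 : (3 + 3 : ZMod 5) = 1 := rfl
  have t34 : (3 + 4 : ZMod 5) = 2 := rfl
  have t41 : (4 + 1 : ZMod 5) = 0 := rfl
  have t42 : (4 + 2 : ZMod 5) = 1 := rfl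
  have t43 : (4 + 3 : ZMod 5) = 2 := rfl
  have t44 : (4 + 4 : ZMod 5) = 3 := rfl
  unfold TT
  simp only [AS2_sum, zero_add, add_zero, t11, t12, t13, t14, t21, t22, t23, t24, t31, t32, t33,
    t34, t41, t42, t43, t44]
  ring

theorem AS2_core (m d A B s D1 D2 c : ℝ) (hc : c ^ 2 = 5) (hc0 : 0 < c)
    (hA : A = 5 / 8 * (D1 ^ 2 + D2 ^ 2)) (hB : B = (D1 ^ 2 - D2 ^ 2) / 8 + D1 * D2 / 2)
    (hs1 : 1 < s) (hs5 : s < 5) (hDD : D1 ^ 2 + D2 ^ 2 ≤ 1 / 5)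
    (hP : 0 < 2 * m ^ 2 + 10 * d ^ 2 + 2 * A) :
    0 < (5 - s) * (2 * (m ^ 4 + 30 * m ^ 2 * d ^ 2 + 25 * d ^ 4) - 2 * (A ^ 2 + 5 * B ^ 2)) +
      s ^ 3 * (2 * m ^ 2 + 10 * d ^ 2 + 2 * A) := by
  set X1 := m + c * d with hX1
  set X2 := m - c * d with hX2
  set U1 := A + c * B with hU1
  set U2 := A - c * B with hU2
  have e1 : X1 ^ 4 + X2 ^ 4 = 2 * (m ^ 4 + 30 * m ^ 2 * d ^ 2 + 25 * d ^ 4) := by
    rw [hX1, hX2]
    linear_combination (12 * m ^ 2 * d ^ 2 + 2 * d ^ 4 * (c ^ 2 + 5)) * hc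
  have e2 : U1 ^ 2 + U2 ^ 2 = 2 * (A ^ 2 + 5 * B ^ 2) := by
    rw [hU1, hU2]
    linear_combination 2 * B ^ 2 * hc
  have e3 : (X1 ^ 2 + U1) + (X2 ^ 2 + U2) = 2 * m ^ 2 + 10 * d ^ 2 + 2 * A := by
    rw [hX1, hX2, hU1, hU2]
    linear_combination 2 * d ^ 2 * hc
  have u1 : 0 ≤ U1 := by
    have h1 : (5 + c) / 8 * U1 = ((5 + c) / 8 * D1 + c / 4 * D2) ^ 2 := by
      rw [hU1, hA, hB]
      linear_combination (-5 / 64 * D2 ^ 2) * hc
    have h2 : 0 ≤ (5 + c) / 8 * U1 := by rw [h1]; exact sq_nonneg _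
    exact nonneg_of_mul_nonneg_right h2 (by positivity)
  have u2 : 0 ≤ U2 := by
    have h1 : (5 + c) / 8 * U2 = ((5 + c) / 8 * D2 - c / 4 * D1) ^ 2 := by
      rw [hU2, hA, hB]
      linear_combination (-5 / 64 * D1 ^ 2) * hc
    have h2 : 0 ≤ (5 + c) / 8 * U2 := by rw [h1]; exact sq_nonneg _
    exact nonneg_of_mul_nonneg_right h2 (by positivity)
  have u12 : U1 + U2 = 5 / 4 * (D1 ^ 2 + D2 ^ 2) := by
    rw [hU1, hU2, hA]
    ring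
  have hss : 1 ≤ s ^ 2 := by nlinarith
  have hU : U1 + U2 ≤ 1 / 4 * s ^ 2 := by rw [u12]; linarith
  set E0 := s ^ 3 - (5 - s) * (1 / 4 * s ^ 2) with hE0
  have hE0pos : 0 < E0 := by
    have h1 : E0 = s ^ 2 * (5 / 4 * s - 5 / 4) := by rw [hE0]; ring
    rw [h1]
    have : 0 < 5 / 4 * s - 5 / 4 := by linarith
    positivity
  have hs5' : 0 ≤ 5 - s := by linarith
  have E1 : E0 ≤ (5 - s) * (X1 ^ 2 - U1) + s ^ 3 := by
    have h1 : (5 - s) * (-(1 / 4 * s ^ 2)) ≤ (5 - s) * (X1 ^ 2 - U1) :=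
      mul_le_mul_of_nonneg_left (by nlinarith [sq_nonneg X1]) hs5'
    rw [hE0]
    linarith
  have E2 : E0 ≤ (5 - s) * (X2 ^ 2 - U2) + s ^ 3 := by
    have h1 : (5 - s) * (-(1 / 4 * s ^ 2)) ≤ (5 - s) * (X2 ^ 2 - U2) :=
      mul_le_mul_of_nonneg_left (by nlinarith [sq_nonneg X2]) hs5'
    rw [hE0]
    linarith
  have p1 : 0 ≤ X1 ^ 2 + U1 := by positivity
  have p2 : 0 ≤ X2 ^ 2 + U2 := by positivity
  have key : (5 - s) * (2 * (m ^ 4 + 30 * m ^ 2 * d ^ 2 + 25 * d ^ 4) - 2 * (A ^ 2 + 5 * B ^ 2)) +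
      s ^ 3 * (2 * m ^ 2 + 10 * d ^ 2 + 2 * A) =
      (X1 ^ 2 + U1) * ((5 - s) * (X1 ^ 2 - U1) + s ^ 3) +
        (X2 ^ 2 + U2) * ((5 - s) * (X2 ^ 2 - U2) + s ^ 3) := by
    rw [← e1, ← e2, ← e3]
    ring
  rw [key]
  have q1 := mul_le_mul_of_nonneg_left E1 p1
  have q2 := mul_le_mul_of_nonneg_left E2 p2
  rw [← e3] at hP
  have q3 : 0 < ((X1 ^ 2 + U1) + (X2 ^ 2 + U2)) * E0 := mul_pos hP hE0pos
  linarith

theorem AS2_PI (a : ZMod 5 → ℝ) (_h0 : ∀ j, 0 ≤ a j) (ha0 : a 0 ≤ 1 / 5) (hs1 : 1 < ∑ j, a j)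
    (hs5 : ∑ j, a j < 5) (hD : (a 1 - a 4) ^ 2 + (a 2 - a 3) ^ 2 ≤ 1 / 5) :
    (∑ j, a j) ^ 3 * ((∑ j, a j) - ∑ j, a j ^ 2) < TT a * (5 - ∑ j, a j) := by
  have hT := AS2_TT a
  rw [AS2_sum] at hs1 hs5 ⊢
  rw [AS2_sum]
  have hP : 0 < 2 * (a 0 - (a 1 + a 2 + a 3 + a 4) / 4) ^ 2 +
      10 * ((a 1 + a 4 - a 2 - a 3) / 4) ^ 2 +
      2 * (5 / 8 * ((a 1 - a 4) ^ 2 + (a 2 - a 3) ^ 2)) := by
    have h1 : 0 < (a 0 - (a 1 + a 2 + a 3 + a 4) / 4) ^ 2 := by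
      have : a 0 - (a 1 + a 2 + a 3 + a 4) / 4 < 0 := by linarith
      nlinarith
    have h2 := sq_nonneg ((a 1 + a 4 - a 2 - a 3) / 4)
    have h3 := sq_nonneg (a 1 - a 4)
    have h4 := sq_nonneg (a 2 - a 3)
    linarith
  have hc : Real.sqrt 5 ^ 2 = 5 := Real.sq_sqrt (by norm_num)
  have hc0 : 0 < Real.sqrt 5 := Real.sqrt_pos.2 (by norm_num)
  have hk := AS2_core (a 0 - (a 1 + a 2 + a 3 + a 4) / 4) ((a 1 + a 4 - a 2 - a 3) / 4)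
    (5 / 8 * ((a 1 - a 4) ^ 2 + (a 2 - a 3) ^ 2))
    (((a 1 - a 4) ^ 2 - (a 2 - a 3) ^ 2) / 8 + (a 1 - a 4) * (a 2 - a 3) / 2)
    (a 0 + a 1 + a 2 + a 3 + a 4) (a 1 - a 4) (a 2 - a 3) (Real.sqrt 5) hc hc0 rfl rfl hs1 hs5 hD hP
  have e : 5 * (TT a * (5 - (a 0 + a 1 + a 2 + a 3 + a 4)) -
      (a 0 + a 1 + a 2 + a 3 + a 4) ^ 3 * (a 0 + a 1 + a 2 + a 3 + a 4 -
        (a 0 ^ 2 + a 1 ^ 2 + a 2 ^ 2 + a 3 ^ 2 + a 4 ^ 2))) =
      2 * ((5 - (a 0 + a 1 + a 2 + a 3 + a 4)) *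
        (2 * ((a 0 - (a 1 + a 2 + a 3 + a 4) / 4) ^ 4 +
      30 * (a 0 - (a 1 + a 2 + a 3 + a 4) / 4) ^ 2 * ((a 1 + a 4 - a 2 - a 3) / 4) ^ 2 +
      25 * ((a 1 + a 4 - a 2 - a 3) / 4) ^ 4) -
      2 * ((5 / 8 * ((a 1 - a 4) ^ 2 + (a 2 - a 3) ^ 2)) ^ 2 +
      5 * (((a 1 - a 4) ^ 2 - (a 2 - a 3) ^ 2) / 8 + (a 1 - a 4) * (a 2 - a 3) / 2) ^ 2)) +
      (a 0 + a 1 + a 2 + a 3 + a 4) ^ 3 * (2 * (a 0 - (a 1 + a 2 + a 3 + a 4) / 4) ^ 2 +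
      10 * ((a 1 + a 4 - a 2 - a 3) / 4) ^ 2 +
      2 * (5 / 8 * ((a 1 - a 4) ^ 2 + (a 2 - a 3) ^ 2)))) := by
    linear_combination (5 - (a 0 + a 1 + a 2 + a 3 + a 4)) * hT
  linarith

/-- the hypotheses of the linear inequality -/
structure AS2_Good (a : ZMod 5 → ℝ) : Prop where
  nn : ∀ j, 0 ≤ a j
  z : a 0 ≤ 1 / 5
  le : ∀ j, a j ≤ 1
  s : 1 < ∑ j, a j
  F : ∀ j, j ≠ 0 → 0 < a 0 → 0 < a j →
    2 * a 0 + 2 * a j ≤ 27 / 25 ∨ (a 0 ≤ 1 / 5 ∧ a j ≤ 2 / 5) ∨ (a 0 ≤ 2 / 5 ∧ a j ≤ 1 / 5)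
  E : ∀ j, j ≠ 0 → 0 < a j → 0 < a (-j) →
    3 * a j + a (-j) ≤ 27 / 25 ∨ (a j ≤ 1 / 5 ∧ a (-j) ≤ 4 / 5) ∨ (a j ≤ 2 / 5 ∧ a (-j) ≤ 1 / 5)
  T : ∀ j, j ≠ 0 → 0 < a j → 0 < a (3 * j) →
    (3 * a j + a (3 * j) ≤ 27 / 25 ∨ (a j ≤ 1 / 5 ∧ a (3 * j) ≤ 4 / 5) ∨
      (a j ≤ 2 / 5 ∧ a (3 * j) ≤ 1 / 5)) ∧ a j + a (3 * j) ≤ 1

theorem AS2_rot {a : ZMod 5 → ℝ} (h : AS2_Good a) : AS2_Good (fun j => a (3 * j)) where
  nn j := h.nn _
  z := by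
    show a (3 * 0) ≤ 1 / 5
    rw [mul_zero]
    exact h.z
  le j := h.le _
  s := by
    have h1 := h.s
    rw [AS2_sum] at h1 ⊢
    have e0 : (3 * 0 : ZMod 5) = 0 := rfl
    have e1 : (3 * 1 : ZMod 5) = 3 := rfl
    have e2 : (3 * 2 : ZMod 5) = 1 := rfl
    have e3 : (3 * 3 : ZMod 5) = 4 := rfl
    have e4 : (3 * 4 : ZMod 5) = 2 := rfl
    rw [e0, e1, e2, e3, e4]
    linarith
  F j hj := by
    have h3 : ∀ j : ZMod 5, j ≠ 0 → 3 * j ≠ 0 := by decide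
    have h1 := h.F (3 * j) (h3 j hj)
    simpa only [mul_zero] using h1
  E j hj := by
    have h3 : ∀ j : ZMod 5, j ≠ 0 → 3 * j ≠ 0 := by decide
    have h1 := h.E (3 * j) (h3 j hj)
    have e : 3 * -j = -(3 * j) := by ring
    rw [e]
    exact h1
  T j hj := by
    have h3 : ∀ j : ZMod 5, j ≠ 0 → 3 * j ≠ 0 := by decide
    exact h.T (3 * j) (h3 j hj)

theorem AS2_le {a : ZMod 5 → ℝ} (h : AS2_Good a) : a 1 ≤ 2 / 5 := by
  by_contra hcon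
  rw [not_le] at hcon
  have n0 := h.nn 0
  have n2 := h.nn 2
  have n3 := h.nn 3
  have n4 := h.nn 4
  have l1 := h.le 1
  have hs := h.s
  rw [AS2_sum] at hs
  have hne1 : (1 : ZMod 5) ≠ 0 := by decide
  have hne2 : (2 : ZMod 5) ≠ 0 := by decide
  have p1 : 0 < a 1 := by linarith
  have a4 : a 4 ≤ 0 := by
    by_contra h4
    rw [not_le] at h4
    have e : (-1 : ZMod 5) = 4 := rfl
    have hE := h.E 1 hne1 p1
    rw [e] at hE
    rcases hE h4 with h5 | h5 | h5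
    · linarith
    · linarith [h5.1]
    · linarith [h5.1]
  have a3 : a 3 ≤ 0 := by
    by_contra h4
    rw [not_le] at h4
    have e : (3 * 1 : ZMod 5) = 3 := rfl
    have hT := h.T 1 hne1 p1
    rw [e] at hT
    rcases (hT h4).1 with h5 | h5 | h5
    · linarith
    · linarith [h5.1]
    · linarith [h5.1]
  have hT2 : 0 < a 2 → (3 * a 2 + a 1 ≤ 27 / 25 ∨ (a 2 ≤ 1 / 5 ∧ a 1 ≤ 4 / 5) ∨
      (a 2 ≤ 2 / 5 ∧ a 1 ≤ 1 / 5)) ∧ a 2 + a 1 ≤ 1 := by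
    intro h2
    have e : (3 * 2 : ZMod 5) = 1 := rfl
    have hT := h.T 2 hne2 h2
    rw [e] at hT
    exact hT p1
  rcases le_or_gt (a 0) 0 with h0 | h0
  · rcases le_or_gt (a 2) 0 with h2 | h2
    · linarith
    · have := (hT2 h2).2
      linarith
  · rcases h.F 1 hne1 h0 p1 with h5 | h5 | h5
    · have h2 : 0 < a 2 := by linarith
      rcases (hT2 h2).1 with h6 | h6 | h6
      · linarith
      · linarith [h6.1]
      · linarith [h6.1]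
    · linarith [h5.2]
    · linarith [h5.2]

theorem AS2_lin {a : ZMod 5 → ℝ} (h : AS2_Good a) : a 1 + a 2 - a 3 - a 4 ≤ 3 / 5 := by
  have l1 := AS2_le h
  have l2 : a 2 ≤ 2 / 5 := by
    have h3 := AS2_le (AS2_rot (AS2_rot (AS2_rot h)))
    have e : (3 * (3 * (3 * 1)) : ZMod 5) = 2 := rfl
    have h4 : a (3 * (3 * (3 * 1))) ≤ 2 / 5 := h3
    rwa [e] at h4
  have hs := h.s
  rw [AS2_sum] at hs
  have hz := h.z
  rcases le_or_gt (a 1 + a 2) (7 / 10) with h7 | h7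
  · linarith
  · exfalso
    have p1 : 0 < a 1 := by linarith
    have p2 : 0 < a 2 := by linarith
    have hne2 : (2 : ZMod 5) ≠ 0 := by decide
    have e : (3 * 2 : ZMod 5) = 1 := rfl
    have hT := h.T 2 hne2 p2
    rw [e] at hT
    rcases (hT p1).1 with h6 | h6 | h6
    · linarith
    · linarith [h6.1]
    · linarith [h6.2]

theorem AS2_RI (a : ZMod 5 → ℝ) (hnn : ∀ j, 0 ≤ a j) (h0 : a 0 ≤ 1 / 5) (h1 : ∀ j, a j ≤ 1)
    (hs : 1 < ∑ j, a j)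
    (hF : ∀ j, j ≠ 0 → 0 < a 0 → 0 < a j →
      2 * a 0 + 2 * a j ≤ 27 / 25 ∨ (a 0 ≤ 1 / 5 ∧ a j ≤ 2 / 5) ∨ (a 0 ≤ 2 / 5 ∧ a j ≤ 1 / 5))
    (hE : ∀ j, j ≠ 0 → 0 < a j → 0 < a (-j) →
      3 * a j + a (-j) ≤ 27 / 25 ∨ (a j ≤ 1 / 5 ∧ a (-j) ≤ 4 / 5) ∨
        (a j ≤ 2 / 5 ∧ a (-j) ≤ 1 / 5))
    (hT : ∀ j, j ≠ 0 → 0 < a j → 0 < a (3 * j) →
      (3 * a j + a (3 * j) ≤ 27 / 25 ∨ (a j ≤ 1 / 5 ∧ a (3 * j) ≤ 4 / 5) ∨
        (a j ≤ 2 / 5 ∧ a (3 * j) ≤ 1 / 5)) ∧ a j + a (3 * j) ≤ 1) :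
    (a 1 - a 4) ^ 2 + (a 2 - a 3) ^ 2 ≤ 1 / 5 := by
  have h : AS2_Good a := ⟨hnn, h0, h1, hs, hF, hE, hT⟩
  have g1 := AS2_rot h
  have g2 := AS2_rot g1
  have g3 := AS2_rot g2
  have l1 := AS2_le h
  have l3 : a 3 ≤ 2 / 5 := by
    have h4 : a (3 * 1) ≤ 2 / 5 := AS2_le g1
    have e : (3 * 1 : ZMod 5) = 3 := rfl
    rwa [e] at h4
  have l4 : a 4 ≤ 2 / 5 := by
    have h4 : a (3 * (3 * 1)) ≤ 2 / 5 := AS2_le g2
    have e : (3 * (3 * 1) : ZMod 5) = 4 := rfl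
    rwa [e] at h4
  have l2 : a 2 ≤ 2 / 5 := by
    have h4 : a (3 * (3 * (3 * 1))) ≤ 2 / 5 := AS2_le g3
    have e : (3 * (3 * (3 * 1)) : ZMod 5) = 2 := rfl
    rwa [e] at h4
  have m1 := AS2_lin h
  have m2 : a 3 + a 1 - a 4 - a 2 ≤ 3 / 5 := by
    have h4 : a (3 * 1) + a (3 * 2) - a (3 * 3) - a (3 * 4) ≤ 3 / 5 := AS2_lin g1
    have e1 : (3 * 1 : ZMod 5) = 3 := rfl
    have e2 : (3 * 2 : ZMod 5) = 1 := rfl
    have e3 : (3 * 3 : ZMod 5) = 4 := rfl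
    have e4 : (3 * 4 : ZMod 5) = 2 := rfl
    rwa [e1, e2, e3, e4] at h4
  have m3 : a 4 + a 3 - a 2 - a 1 ≤ 3 / 5 := by
    have h4 : a (3 * (3 * 1)) + a (3 * (3 * 2)) - a (3 * (3 * 3)) - a (3 * (3 * 4)) ≤ 3 / 5 :=
      AS2_lin g2
    have e1 : (3 * (3 * 1) : ZMod 5) = 4 := rfl
    have e2 : (3 * (3 * 2) : ZMod 5) = 3 := rfl
    have e3 : (3 * (3 * 3) : ZMod 5) = 2 := rfl
    have e4 : (3 * (3 * 4) : ZMod 5) = 1 := rfl
    rwa [e1, e2, e3, e4] at h4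
  have m4 : a 2 + a 4 - a 1 - a 3 ≤ 3 / 5 := by
    have h4 : a (3 * (3 * (3 * 1))) + a (3 * (3 * (3 * 2))) - a (3 * (3 * (3 * 3))) -
      a (3 * (3 * (3 * 4))) ≤ 3 / 5 := AS2_lin g3
    have e1 : (3 * (3 * (3 * 1)) : ZMod 5) = 2 := rfl
    have e2 : (3 * (3 * (3 * 2)) : ZMod 5) = 4 := rfl
    have e3 : (3 * (3 * (3 * 3)) : ZMod 5) = 1 := rfl
    have e4 : (3 * (3 * (3 * 4)) : ZMod 5) = 3 := rfl
    rwa [e1, e2, e3, e4] at h4
  have n1 := hnn 1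
  have n2 := hnn 2
  have n3 := hnn 3
  have n4 := hnn 4
  obtain ⟨x, hx⟩ : ∃ x, x = |a 1 - a 4| := ⟨_, rfl⟩
  obtain ⟨y, hy⟩ : ∃ y, y = |a 2 - a 3| := ⟨_, rfl⟩
  have x0 : 0 ≤ x := by rw [hx]; exact abs_nonneg _
  have y0 : 0 ≤ y := by rw [hy]; exact abs_nonneg _
  have x1 : x ≤ 2 / 5 := by rw [hx, abs_le]; constructor <;> linarith
  have y1 : y ≤ 2 / 5 := by rw [hy, abs_le]; constructor <;> linarith
  have hxy : x + y ≤ 3 / 5 := by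
    rw [hx, hy]
    rcases abs_cases (a 1 - a 4) with h5 | h5 <;> rcases abs_cases (a 2 - a 3) with h6 | h6 <;>
      rw [h5.1, h6.1] <;> linarith
  have ex : (a 1 - a 4) ^ 2 = x ^ 2 := by rw [hx, sq_abs]
  have ey : (a 2 - a 3) ^ 2 = y ^ 2 := by rw [hy, sq_abs]
  rw [ex, ey]
  rcases le_or_gt (x + y) (2 / 5) with h7 | h7
  · nlinarith
  · nlinarith [mul_nonneg (sub_nonneg.2 x1) (sub_nonneg.2 y1)]

theorem AS2_C31 (K : Type) (X Y : Finset K) (q : ℕ) (hK : Nat.card K = q) (hq : 0 < q)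
    (a b : ℝ) (ha : (X.card : ℝ) = a * q) (hb : (Y.card : ℝ) = b * q) (h : C31 K X Y) :
    3 * a + b ≤ 27 / 25 ∨ (a ≤ 1 / 5 ∧ b ≤ 4 / 5) ∨ (a ≤ 2 / 5 ∧ b ≤ 1 / 5) := by
  have hq' : (0 : ℝ) < q := by exact_mod_cast hq
  unfold C31 at h
  rw [hK] at h
  rcases h with h | ⟨h1, h2⟩ | ⟨h1, h2⟩
  · left
    have h' : 25 * (3 * (X.card : ℝ) + Y.card) ≤ 27 * q := by exact_mod_cast h
    rw [ha, hb] at h'
    have h3 : (25 * (3 * a + b)) * q ≤ 27 * q := by linarith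
    have h4 := le_of_mul_le_mul_right h3 hq'
    linarith
  · right; left
    have h1' : 5 * (X.card : ℝ) ≤ q := by exact_mod_cast h1
    have h2' : 5 * (Y.card : ℝ) ≤ 4 * q := by exact_mod_cast h2
    rw [ha] at h1'
    rw [hb] at h2'
    have h3 : (5 * a) * q ≤ 1 * q := by linarith
    have h4 : (5 * b) * q ≤ 4 * q := by linarith
    have h5 := le_of_mul_le_mul_right h3 hq'
    have h6 := le_of_mul_le_mul_right h4 hq'
    constructor <;> linarith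
  · right; right
    have h1' : 5 * (X.card : ℝ) ≤ 2 * q := by exact_mod_cast h1
    have h2' : 5 * (Y.card : ℝ) ≤ q := by exact_mod_cast h2
    rw [ha] at h1'
    rw [hb] at h2'
    have h3 : (5 * a) * q ≤ 2 * q := by linarith
    have h4 : (5 * b) * q ≤ 1 * q := by linarith
    have h5 := le_of_mul_le_mul_right h3 hq'
    have h6 := le_of_mul_le_mul_right h4 hq'
    constructor <;> linarith

theorem AS2_C22 (K : Type) (X Y : Finset K) (q : ℕ) (hK : Nat.card K = q) (hq : 0 < q)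
    (a b : ℝ) (ha : (X.card : ℝ) = a * q) (hb : (Y.card : ℝ) = b * q) (h : C22 K X Y) :
    2 * a + 2 * b ≤ 27 / 25 ∨ (a ≤ 1 / 5 ∧ b ≤ 2 / 5) ∨ (a ≤ 2 / 5 ∧ b ≤ 1 / 5) := by
  have hq' : (0 : ℝ) < q := by exact_mod_cast hq
  unfold C22 at h
  rw [hK] at h
  rcases h with h | ⟨h1, h2⟩ | ⟨h1, h2⟩
  · left
    have h' : 25 * (2 * (X.card : ℝ) + 2 * Y.card) ≤ 27 * q := by exact_mod_cast h
    rw [ha, hb] at h'
    have h3 : (25 * (2 * a + 2 * b)) * q ≤ 27 * q := by linarith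
    have h4 := le_of_mul_le_mul_right h3 hq'
    linarith
  · right; left
    have h1' : 5 * (X.card : ℝ) ≤ q := by exact_mod_cast h1
    have h2' : 5 * (Y.card : ℝ) ≤ 2 * q := by exact_mod_cast h2
    rw [ha] at h1'
    rw [hb] at h2'
    have h3 : (5 * a) * q ≤ 1 * q := by linarith
    have h4 : (5 * b) * q ≤ 2 * q := by linarith
    have h5 := le_of_mul_le_mul_right h3 hq'
    have h6 := le_of_mul_le_mul_right h4 hq'
    constructor <;> linarith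
  · right; right
    have h1' : 5 * (X.card : ℝ) ≤ 2 * q := by exact_mod_cast h1
    have h2' : 5 * (Y.card : ℝ) ≤ q := by exact_mod_cast h2
    rw [ha] at h1'
    rw [hb] at h2'
    have h3 : (5 * a) * q ≤ 2 * q := by linarith
    have h4 : (5 * b) * q ≤ 1 * q := by linarith
    have h5 := le_of_mul_le_mul_right h3 hq'
    have h6 := le_of_mul_le_mul_right h4 hq'
    constructor <;> linarith

theorem AS2 : K2Stmt → F1Stmt → DC1Stmt → DC2Stmt → MainStmt := by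
  intro hK2 hF1 hDC1 hDC2 n
  induction n with
  | zero =>
    intro V _ _ _ hV A hA
    have hsub : Subsingleton V := by
      have h1 : Nat.card V = 1 := by rw [hV, pow_zero]
      exact (Nat.card_eq_one_iff_unique.1 h1).1
    have hAe : A = ∅ := by
      rw [Finset.eq_empty_iff_forall_notMem]
      intro x hx
      have h2 := hA x hx x hx x hx
      rw [Subsingleton.elim (x + x + x) x] at h2
      exact h2 hx
    rw [hAe]
    simp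
  | succ n ih =>
    intro V _ _ _ hV A hA
    classical
    obtain ⟨q, hqdef⟩ : ∃ q : ℕ, q = 5 ^ n := ⟨_, rfl⟩
    have hq0 : 0 < q := by rw [hqdef]; positivity
    have hVq : Nat.card V = 5 * q := by rw [hV, hqdef, pow_succ]; ring
    by_contra hcon
    have hmq : q < A.card := by omega
    obtain ⟨φ, hφ, hdc⟩ := hDC2 hDC1 V q hq0 hVq A hA
    obtain ⟨hker, B, hBc, hBs⟩ := hF1 V A φ hφ hA
    have hKq : Nat.card (LinearMap.ker φ) = q := by omega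
    have : Fintype (LinearMap.ker φ) := Fintype.ofFinite _
    have hq' : (0 : ℝ) < q := by exact_mod_cast hq0
    let a : ZMod 5 → ℝ := fun j => (cnt A φ j : ℝ) / q
    have hc : ∀ j, (cnt A φ j : ℝ) = a j * q := fun j => by
      show (cnt A φ j : ℝ) = (cnt A φ j : ℝ) / q * q
      field_simp
    have hB : ∀ j, ((B j).card : ℝ) = a j * q := fun j => by rw [hBc j]; exact hc j
    have hsumN : A.card = ∑ j : ZMod 5, cnt A φ j := by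
      unfold cnt
      exact Finset.card_eq_sum_card_fiberwise (fun x _ => Finset.mem_univ _)
    have hm : (A.card : ℝ) = (∑ j, a j) * q := by
      rw [hsumN, Nat.cast_sum, Finset.sum_mul]
      exact Finset.sum_congr rfl fun j _ => hc j
    have hlt : A.card < 5 * q := by
      have h0 : (0 : V) ∉ A := by
        intro h0
        have h1 := hA 0 h0 0 h0 0 h0
        rw [add_zero, add_zero] at h1
        exact h1 h0
      have h2 := Finset.card_lt_univ_of_notMem h0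
      rw [← Nat.card_eq_fintype_card, hVq] at h2
      exact h2
    have hnn : ∀ j, 0 ≤ a j := fun j => div_nonneg (Nat.cast_nonneg _) hq'.le
    have h0 : a 0 ≤ 1 / 5 := by
      have h1 : 5 * (B 0).card ≤ Nat.card (LinearMap.ker φ) := by
        refine ih (LinearMap.ker φ) (by rw [hKq, hqdef]) (B 0) ?_
        intro x hx y hy z hz
        have h2 := hBs 0 0 0 x hx y hy z hz
        rwa [add_zero, add_zero] at h2
      rw [hKq] at h1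
      have h2 : 5 * ((B 0).card : ℝ) ≤ q := by exact_mod_cast h1
      rw [hB 0] at h2
      have h3 : (5 * a 0) * q ≤ 1 * q := by linarith
      have h4 := le_of_mul_le_mul_right h3 hq'
      linarith
    have h1 : ∀ j, a j ≤ 1 := fun j => by
      have h2 : (B j).card ≤ q := by
        rw [← hKq, Nat.card_eq_fintype_card]
        exact Finset.card_le_univ _
      have h3 : ((B j).card : ℝ) ≤ q := by exact_mod_cast h2
      rw [hB j] at h3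
      have h4 : a j * q ≤ 1 * q := by linarith
      exact le_of_mul_le_mul_right h4 hq'
    have hs1 : 1 < ∑ j, a j := by
      have h2 : (q : ℝ) < A.card := by exact_mod_cast hmq
      rw [hm] at h2
      have h3 : 1 * (q : ℝ) < (∑ j, a j) * q := by linarith
      exact lt_of_mul_lt_mul_right h3 hq'.le
    have hs5 : ∑ j, a j < 5 := by
      have h2 : (A.card : ℝ) < 5 * q := by exact_mod_cast hlt
      rw [hm] at h2
      exact lt_of_mul_lt_mul_right h2 hq'.le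
    have hne : ∀ j, 0 < a j → (B j).Nonempty := fun j hj => by
      rw [← Finset.card_pos]
      have h2 : (0 : ℝ) < (B j).card := by
        rw [hB j]
        exact mul_pos hj hq'
      exact_mod_cast h2
    have hF : ∀ j : ZMod 5, j ≠ 0 → 0 < a 0 → 0 < a j →
        2 * a 0 + 2 * a j ≤ 27 / 25 ∨ (a 0 ≤ 1 / 5 ∧ a j ≤ 2 / 5) ∨
          (a 0 ≤ 2 / 5 ∧ a j ≤ 1 / 5) := by
      intro j _ hp0 hpj
      refine AS2_C22 (LinearMap.ker φ) (B 0) (B j) q hKq hq0 _ _ (hB 0) (hB j) ?_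
      refine (hK2 (LinearMap.ker φ) (B 0) (B j) (hne 0 hp0) (hne j hpj)).2.2 ?_
      intro x hx y hy z hz
      have h2 := hBs 0 0 j x hx y hy z hz
      rwa [add_zero, zero_add] at h2
    have hE : ∀ j : ZMod 5, j ≠ 0 → 0 < a j → 0 < a (-j) →
        3 * a j + a (-j) ≤ 27 / 25 ∨ (a j ≤ 1 / 5 ∧ a (-j) ≤ 4 / 5) ∨
          (a j ≤ 2 / 5 ∧ a (-j) ≤ 1 / 5) := by
      intro j _ hp0 hpj
      refine AS2_C31 (LinearMap.ker φ) (B j) (B (-j)) q hKq hq0 _ _ (hB j) (hB (-j)) ?_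
      refine (hK2 (LinearMap.ker φ) (B j) (B (-j)) (hne j hp0) (hne (-j) hpj)).2.1 ?_
      intro x hx y hy z hz
      have h2 := hBs j j (-j) x hx y hy z hz
      rwa [add_neg_cancel_right] at h2
    have hT : ∀ j : ZMod 5, j ≠ 0 → 0 < a j → 0 < a (3 * j) →
        (3 * a j + a (3 * j) ≤ 27 / 25 ∨ (a j ≤ 1 / 5 ∧ a (3 * j) ≤ 4 / 5) ∨
          (a j ≤ 2 / 5 ∧ a (3 * j) ≤ 1 / 5)) ∧ a j + a (3 * j) ≤ 1 := by
      intro j _ hp0 hpj
      have h3 := (hK2 (LinearMap.ker φ) (B j) (B (3 * j)) (hne j hp0) (hne (3 * j) hpj)).1 (by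
        intro x hx y hy z hz
        have h2 := hBs j j j x hx y hy z hz
        have h4 : j + j + j = 3 * j := by ring
        rwa [h4] at h2)
      refine ⟨AS2_C31 (LinearMap.ker φ) (B j) (B (3 * j)) q hKq hq0 _ _ (hB j) (hB (3 * j)) h3.1,
        ?_⟩
      have h5 := h3.2
      rw [hKq] at h5
      have h6 : ((B j).card : ℝ) + (B (3 * j)).card ≤ q := by exact_mod_cast h5
      rw [hB, hB] at h6
      have h7 : (a j + a (3 * j)) * q ≤ 1 * q := by linarith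
      exact le_of_mul_le_mul_right h7 hq'
    have hri := AS2_RI a hnn h0 h1 hs1 hF hE hT
    have hpi := AS2_PI a hnn h0 hs1 hs5 hri
    have hdcR : (∑ i : ZMod 5, ∑ j : ZMod 5, ∑ k : ZMod 5,
        (cnt A φ i : ℝ) * cnt A φ j * cnt A φ k * cnt A φ (i + j + k)) * (5 * q - A.card)
        ≤ (A.card : ℝ) ^ 3 * (A.card * q - ∑ j : ZMod 5, (cnt A φ j : ℝ) ^ 2) := by
      exact_mod_cast hdc
    simp only [hc] at hdcR
    rw [hm] at hdcR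
    have hTT : (∑ i : ZMod 5, ∑ j : ZMod 5, ∑ k : ZMod 5,
        (a i * q) * (a j * q) * (a k * q) * (a (i + j + k) * q)) = TT a * (q : ℝ) ^ 4 := by
      unfold TT
      simp only [Finset.sum_mul]
      refine Finset.sum_congr rfl fun i _ => Finset.sum_congr rfl fun j _ =>
        Finset.sum_congr rfl fun k _ => ?_
      ring
    have hP : (∑ j : ZMod 5, (a j * (q : ℝ)) ^ 2) = (∑ j : ZMod 5, a j ^ 2) * (q : ℝ) ^ 2 := by
      rw [Finset.sum_mul]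
      exact Finset.sum_congr rfl fun j _ => by ring
    rw [hTT, hP] at hdcR
    have e1 : TT a * (q : ℝ) ^ 4 * (5 * q - (∑ j, a j) * q) =
        (TT a * (5 - ∑ j, a j)) * (q : ℝ) ^ 5 := by ring
    have e2 : ((∑ j, a j) * (q : ℝ)) ^ 3 * ((∑ j, a j) * q * q -
        (∑ j : ZMod 5, a j ^ 2) * (q : ℝ) ^ 2) =
        ((∑ j, a j) ^ 3 * ((∑ j, a j) - ∑ j, a j ^ 2)) * (q : ℝ) ^ 5 := by ring
    rw [e1, e2] at hdcR
    have hfin := le_of_mul_le_mul_right hdcR (pow_pos hq' 5)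
    exact absurd hpi (not_lt.2 hfin)

end Pool.Agent.H84R3
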