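import Mathlib

set_option autoImplicit false

open Finset

namespace Pool.Agent.H84R3.Cyc

/-- no sum of `k` elements of `A` is a sum of `l` elements of `A` -/
def KL {G : Type} [AddCommGroup G] (k l : ℕ) (A : Finset G) : Prop :=
  ∀ f : Fin k → G, (∀ i, f i ∈ A) → ∀ g : Fin l → G, (∀ i, g i ∈ A) → ∑ i, f i ≠ ∑ i, g i

theorem disj_iff {G : Type} [AddCommGroup G] [DecidableEq G] (k l : ℕ) (A : Finset G) :
    Disjoint ((Fintype.piFinset (fun _ : Fin k => A)).image (fun f : Fin k → G => ∑ i, f i))
      ((Fintype.piFinset (fun _ : Fin l => A)).image (fun f : Fin l → G => ∑ i, f i)) ↔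
    KL k l A := by
  rw [Finset.disjoint_left]
  constructor
  · intro h f hf g hg e
    refine h (a := ∑ i, f i) ?_ ?_
    · exact Finset.mem_image.mpr ⟨f, Fintype.mem_piFinset.mpr hf, rfl⟩
    · exact Finset.mem_image.mpr ⟨g, Fintype.mem_piFinset.mpr hg, e.symm⟩
  · intro h x hx hx'
    obtain ⟨f, hf, rfl⟩ := Finset.mem_image.mp hx
    obtain ⟨g, hg, e⟩ := Finset.mem_image.mp hx'
    exact h f (Fintype.mem_piFinset.mp hf) g (Fintype.mem_piFinset.mp hg) e.symm

/-- the largest size of a `(k,l)`-sum-free set -/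
def mu (G : Type) [AddCommGroup G] [Fintype G] [DecidableEq G] (k l : ℕ) : ℕ :=
  (Finset.univ.filter (fun A : Finset G =>
    Disjoint ((Fintype.piFinset (fun _ : Fin k => A)).image (fun f : Fin k → G => ∑ i, f i))
      ((Fintype.piFinset (fun _ : Fin l => A)).image (fun f : Fin l → G => ∑ i, f i)))).sup
    Finset.card

theorem le_mu {G : Type} [AddCommGroup G] [Fintype G] [DecidableEq G] {k l : ℕ} {A : Finset G}
    (h : KL k l A) : A.card ≤ mu G k l := by
  unfold mu
  apply Finset.le_sup (f := Finset.card)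
  rw [Finset.mem_filter]
  exact ⟨Finset.mem_univ _, (disj_iff k l A).mpr h⟩

theorem exists_mu {G : Type} [AddCommGroup G] [Fintype G] [DecidableEq G] {k l : ℕ}
    (hk : 0 < k) : ∃ A : Finset G, KL k l A ∧ A.card = mu G k l := by
  unfold mu
  obtain ⟨A, hA, e⟩ := Finset.exists_mem_eq_sup (Finset.univ.filter (fun A : Finset G =>
    Disjoint ((Fintype.piFinset (fun _ : Fin k => A)).image (fun f : Fin k → G => ∑ i, f i))
      ((Fintype.piFinset (fun _ : Fin l => A)).image (fun f : Fin l → G => ∑ i, f i))))
    ⟨∅, by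
      rw [Finset.mem_filter]
      refine ⟨Finset.mem_univ _, (disj_iff k l ∅).mpr ?_⟩
      intro f hf
      exact absurd (hf ⟨0, hk⟩) (Finset.notMem_empty _)⟩ Finset.card
  rw [Finset.mem_filter] at hA
  exact ⟨A, (disj_iff k l A).mp hA.2, e.symm⟩

/-- lower bound by pulling back along a surjection onto `ZMod κ` -/
theorem lower {G : Type} [AddCommGroup G] [Fintype G] [DecidableEq G] (κ : ℕ) [NeZero κ]
    (π : G →+ ZMod κ) (hπ : Function.Surjective π) {k l : ℕ} (hk : 0 < k) :
    mu (ZMod κ) k l * Fintype.card G ≤ mu G k l * κ := by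
  obtain ⟨B, hB, e⟩ := exists_mu (G := ZMod κ) (l := l) hk
  set A : Finset G := Finset.univ.filter (fun x => π x ∈ B) with hA
  have hKL : KL k l A := by
    intro f hf g hg h
    refine hB (fun i => π (f i)) (fun i => ?_) (fun i => π (g i)) (fun i => ?_) ?_
    · exact (Finset.mem_filter.mp (hf i)).2
    · exact (Finset.mem_filter.mp (hg i)).2
    · rw [← map_sum, ← map_sum, h]
  have hcard : A.card * κ = B.card * Fintype.card G := by
    have hfib : ∀ b : ZMod κ, (Finset.univ.filter (fun x => π x = b)).card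
        = (Finset.univ.filter (fun x => π x = 0)).card := by
      intro b
      obtain ⟨y, hy⟩ := hπ b
      apply Finset.card_bij' (fun x _ => x - y) (fun x _ => x + y)
      · intro x hx
        rw [Finset.mem_filter] at hx ⊢
        refine ⟨Finset.mem_univ _, ?_⟩
        rw [map_sub, hx.2, hy, sub_self]
      · intro x hx
        rw [Finset.mem_filter] at hx ⊢
        refine ⟨Finset.mem_univ _, ?_⟩
        rw [map_add, hx.2, hy, zero_add]
      · intro x _; exact sub_add_cancel x y
      · intro x _; exact add_sub_cancel_right x y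
    have h1 : A.card = B.card * (Finset.univ.filter (fun x => π x = 0)).card := by
      have := Finset.card_eq_sum_card_fiberwise (s := A) (t := B) (f := π) (by
        intro x hx
        exact (Finset.mem_filter.mp hx).2)
      rw [this, ← smul_eq_mul, ← Finset.sum_const]
      apply Finset.sum_congr rfl
      intro b hb
      rw [← hfib b]
      congr 1
      ext x
      simp only [hA, Finset.mem_filter, Finset.mem_univ, true_and]
      constructor
      · rintro ⟨_, h⟩; exact h
      · intro h; exact ⟨by rw [h]; exact hb, h⟩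
    have h2 : Fintype.card G = κ * (Finset.univ.filter (fun x => π x = 0)).card := by
      have := Finset.card_eq_sum_card_fiberwise (s := (Finset.univ : Finset G))
        (t := (Finset.univ : Finset (ZMod κ))) (f := π) (by intro x _; exact Finset.mem_univ _)
      rw [Finset.card_univ] at this
      rw [this, Finset.sum_congr rfl (fun b _ => hfib b), Finset.sum_const, Finset.card_univ,
        ZMod.card, smul_eq_mul]
    rw [h1, h2]; ring
  calc mu (ZMod κ) k l * Fintype.card G = B.card * Fintype.card G := by rw [e]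
    _ = A.card * κ := hcard.symm
    _ ≤ mu G k l * κ := Nat.mul_le_mul_right _ (le_mu hKL)

/-- upper bound when every coset of the image of `ψ` has a representative killed by `k - l` -/
theorem upper {G : Type} [AddCommGroup G] [Fintype G] [DecidableEq G] (κ : ℕ) [NeZero κ]
    (ψ : ZMod κ →+ G) (hψ : Function.Injective ψ) {k l : ℕ} (hkl : l < k)
    (hrep : ∀ x : G, ∃ t : ZMod κ, (k - l) • (x - ψ t) = 0) :
    mu G k l * κ ≤ mu (ZMod κ) k l * Fintype.card G := by
  classical
  obtain ⟨A, hA, e⟩ := exists_mu (G := G) (l := l) (lt_of_le_of_lt (Nat.zero_le l) hkl)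
  rw [← e]
  set H : AddSubgroup G := ψ.range with hH
  have hcardH : Nat.card H = κ := by
    have := Nat.card_congr (AddMonoidHom.ofInjective hψ).toEquiv
    rw [← this, Nat.card_zmod]
  have hG : Nat.card (G ⧸ H) * κ = Fintype.card G := by
    rw [← Nat.card_eq_fintype_card, ← hcardH]
    exact (AddSubgroup.card_eq_card_quotient_mul_card_addSubgroup H).symm
  haveI : Fintype (G ⧸ H) := Fintype.ofFinite _
  have hfib : ∀ Q : G ⧸ H, (A.filter (fun x => (QuotientAddGroup.mk x : G ⧸ H) = Q)).card
      ≤ mu (ZMod κ) k l := by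
    intro Q
    obtain ⟨x0, rfl⟩ := QuotientAddGroup.mk_surjective Q
    obtain ⟨t0, ht0⟩ := hrep x0
    set x : G := x0 - ψ t0 with hx
    set B : Finset (ZMod κ) := Finset.univ.filter (fun t => x + ψ t ∈ A) with hB
    have hBKL : KL k l B := by
      intro f hf g hg h
      refine hA (fun i => x + ψ (f i)) (fun i => (Finset.mem_filter.mp (hf i)).2)
        (fun i => x + ψ (g i)) (fun i => (Finset.mem_filter.mp (hg i)).2) ?_
      rw [Finset.sum_add_distrib, Finset.sum_add_distrib, ← map_sum, ← map_sum, h]
      simp only [Finset.sum_const, Finset.card_univ, Fintype.card_fin]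
      have hk : k = l + (k - l) := by omega
      conv_lhs => rw [hk]
      rw [add_smul, ht0, add_zero]
    refine le_trans ?_ (le_mu hBKL)
    apply Finset.card_le_card_of_surjOn (fun t => x + ψ t)
    intro y hy
    rw [Finset.mem_coe, Finset.mem_filter] at hy
    obtain ⟨hyA, hyQ⟩ := hy
    have hmem : -x0 + y ∈ H := QuotientAddGroup.eq.mp hyQ.symm
    obtain ⟨t, ht⟩ := hmem
    have hxy : x + ψ (t + t0) = y := by
      rw [map_add, ht, hx]; abel
    refine ⟨t + t0, ?_, hxy⟩
    rw [Finset.mem_coe, hB, Finset.mem_filter]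
    exact ⟨Finset.mem_univ _, by rw [hxy]; exact hyA⟩
  have hsum : A.card ≤ Nat.card (G ⧸ H) * mu (ZMod κ) k l := by
    have := Finset.card_eq_sum_card_fiberwise (s := A) (t := (Finset.univ : Finset (G ⧸ H)))
      (f := fun x => (QuotientAddGroup.mk x : G ⧸ H)) (by intro x _; exact Finset.mem_univ _)
    rw [this, Nat.card_eq_fintype_card, ← Finset.card_univ, ← smul_eq_mul, ← Finset.sum_const]
    exact Finset.sum_le_sum (fun Q _ => hfib Q)
  calc A.card * κ ≤ (Nat.card (G ⧸ H) * mu (ZMod κ) k l) * κ := Nat.mul_le_mul_right _ hsum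
    _ = mu (ZMod κ) k l * (Nat.card (G ⧸ H) * κ) := by ring
    _ = mu (ZMod κ) k l * Fintype.card G := by rw [hG]

end Pool.Agent.H84R3.Cyc
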