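import Pool.Agent.H84R3.Cyc

set_option autoImplicit false

open Finset

namespace Pool.Agent.H84R3.Cyc

/-- a finite abelian group maps onto the cyclic group of order its exponent -/
theorem exists_surj {G : Type} [AddCommGroup G] [Finite G] (κ : ℕ) [NeZero κ]
    (h : AddMonoid.exponent G = κ) : ∃ π : G →+ ZMod κ, Function.Surjective π := by
  have hexp : Monoid.exponent (Multiplicative G) = κ := by
    rw [← h]; rfl
  haveI : NeZero (Monoid.exponent (Multiplicative G)) := by rw [hexp]; infer_instance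
  obtain ⟨e⟩ := CommGroup.monoidHom_mulEquiv_of_hasEnoughRootsOfUnity (Multiplicative G) ℂ
  obtain ⟨g, hg⟩ := Monoid.exists_orderOf_eq_exponent
    (G := Multiplicative G) Monoid.ExponentExists.of_finite
  set χ : Multiplicative G →* ℂˣ := e.symm g with hχ
  have hord : orderOf χ = κ := by
    rw [hχ, MulEquiv.orderOf_eq, hg, hexp]
  haveI : Finite χ.range := by
    exact Set.finite_range χ
  have hcyc : IsCyclic χ.range := inferInstance
  have h1 : κ ∣ Nat.card χ.range := by
    rw [← hord]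
    apply orderOf_dvd_of_pow_eq_one
    refine MonoidHom.ext fun x => Units.ext ?_
    have := pow_card_eq_one' (G := χ.range) (x := ⟨χ x, ⟨x, rfl⟩⟩)
    have h2 := congrArg (fun y : χ.range => ((y : ℂˣ) : ℂ)) this
    show (((χ x) ^ Nat.card χ.range : ℂˣ) : ℂ) = ((1 : ℂˣ) : ℂ)
    exact h2
  have h2 : Nat.card χ.range ∣ κ := by
    rw [← IsCyclic.exponent_eq_card]
    apply Monoid.exponent_dvd_of_forall_pow_eq_one
    rintro ⟨_, x, rfl⟩
    apply Subtype.ext
    show (χ x) ^ κ = 1
    rw [← map_pow, ← hexp, Monoid.pow_exponent_eq_one, map_one]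
  have hcard : Nat.card χ.range = Nat.card (Multiplicative (ZMod κ)) := by
    rw [Nat.dvd_antisymm h2 h1]
    simp
  let E := mulEquivOfCyclicCardEq hcard
  refine ⟨AddMonoidHom.toMultiplicative.symm (E.toMonoidHom.comp χ.rangeRestrict), ?_⟩
  intro t
  obtain ⟨x, hx⟩ := χ.rangeRestrict_surjective (E.symm (Multiplicative.ofAdd t))
  refine ⟨Multiplicative.toAdd x, ?_⟩
  show Multiplicative.toAdd (E (χ.rangeRestrict x)) = t
  rw [hx, MulEquiv.apply_symm_apply, toAdd_ofAdd]

/-- a cyclic subgroup of order the exponent which sees `d G` -/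
theorem exists_inj {G : Type} [AddCommGroup G] [Finite G] (κ : ℕ) [NeZero κ]
    (h : AddMonoid.exponent G = κ) (d : ℕ)
    (hd : ∃ c : G, ∀ x : G, d • x ∈ AddSubgroup.zmultiples (d • c)) :
    ∃ ψ : ZMod κ →+ G, Function.Injective ψ ∧ ∀ x : G, ∃ t : ZMod κ, d • (x - ψ t) = 0 := by
  obtain ⟨g0, hg0⟩ := AddMonoid.exists_addOrderOf_eq_exponent
    (G := G) AddMonoid.ExponentExists.of_finite
  rw [h] at hg0
  have hκ : (zmultiplesHom G g0) (κ : ℤ) = 0 := by
    rw [zmultiplesHom_apply, natCast_zsmul, ← hg0, addOrderOf_nsmul_eq_zero]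
  refine ⟨ZMod.lift κ ⟨zmultiplesHom G g0, hκ⟩, ?_, ?_⟩
  · rw [ZMod.lift_injective]
    intro m hm
    rw [ZMod.intCast_zmod_eq_zero_iff_dvd]
    simp only [zmultiplesHom_apply] at hm
    rw [← hg0]
    exact addOrderOf_dvd_iff_zsmul_eq_zero.mpr hm
  · intro x
    obtain ⟨c, hc⟩ := hd
    have hdvd : addOrderOf (d • c) ∣ addOrderOf (d • g0) := by
      apply addOrderOf_dvd_of_nsmul_eq_zero
      rw [addOrderOf_nsmul, hg0, smul_smul]
      obtain ⟨r, hr⟩ := Nat.gcd_dvd_right κ d
      have : κ / κ.gcd d * d = κ * r := by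
        calc κ / κ.gcd d * d = κ / κ.gcd d * (κ.gcd d * r) := by rw [← hr]
          _ = κ * r := by rw [← mul_assoc, Nat.div_mul_cancel (Nat.gcd_dvd_left κ d)]
      rw [this, mul_comm, mul_smul, ← h, AddMonoid.exponent_nsmul_eq_zero, smul_zero]
    have hle : AddSubgroup.zmultiples (d • g0) ≤ AddSubgroup.zmultiples (d • c) := by
      rw [AddSubgroup.zmultiples_le]
      exact hc g0
    have heq : AddSubgroup.zmultiples (d • g0) = AddSubgroup.zmultiples (d • c) := by
      apply AddSubgroup.eq_of_le_of_card_ge hle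
      rw [Nat.card_zmultiples, Nat.card_zmultiples]
      apply Nat.le_of_dvd _ hdvd
      exact addOrderOf_pos _
    have hx := hc x
    rw [← heq, AddSubgroup.mem_zmultiples_iff] at hx
    obtain ⟨m, hm⟩ := hx
    refine ⟨(m : ZMod κ), ?_⟩
    rw [ZMod.lift_coe]
    simp only [zmultiplesHom_apply]
    rw [smul_sub, ← hm, smul_comm d m g0, sub_self]

/-- **Theorem.** The exponent formula holds for `(k,l)` and every finite abelian group `G` such
that the subgroup `(k - l) G` is cyclic. -/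
theorem main (G : Type) [AddCommGroup G] [Fintype G] [DecidableEq G] (κ : ℕ) [NeZero κ]
    (hκ : AddMonoid.exponent G = κ) (k l : ℕ) (hlk : l < k)
    (hd : ∃ c : G, ∀ x : G, (k - l) • x ∈ AddSubgroup.zmultiples ((k - l) • c)) :
    mu G k l * κ = mu (ZMod κ) k l * Fintype.card G := by
  apply le_antisymm
  · obtain ⟨ψ, hψ, hrep⟩ := exists_inj κ hκ (k - l) hd
    exact upper κ ψ hψ hlk hrep
  · obtain ⟨π, hπ⟩ := exists_surj κ hκ
    exact lower κ π hπ (lt_of_le_of_lt (Nat.zero_le l) hlk)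

end Pool.Agent.H84R3.Cyc
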