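import Pool.Agent.H84R3.Defs

set_option autoImplicit false

open Finset
open scoped Pointwise

namespace Pool.Agent.H84R3

/-- DC1: counting linear functionals. -/
theorem DC1 : DC1Stmt := by
  classical
  intro V _ _ _ _ q hV
  haveI : Fact (Nat.Prime 5) := ⟨by norm_num⟩
  haveI hfd : Module.Finite (ZMod 5) V := inferInstance
  have hc : Nat.card (V →ₗ[ZMod 5] ZMod 5) = 5 * q := by
    rw [← hV]
    have h1 : Nat.card (Module.Dual (ZMod 5) V) =
        Nat.card (ZMod 5) ^ Module.finrank (ZMod 5) (Module.Dual (ZMod 5) V) :=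
      Module.natCard_eq_pow_finrank
    have h2 : Nat.card V = Nat.card (ZMod 5) ^ Module.finrank (ZMod 5) V :=
      Module.natCard_eq_pow_finrank
    rw [h2, ← Subspace.dual_finrank_eq (K := ZMod 5) (V := V)]
    exact h1
  refine ⟨by rw [← Nat.card_eq_fintype_card]; exact hc, ?_⟩
  intro z hz
  set ev : (Module.Dual (ZMod 5) V) →ₗ[ZMod 5] ZMod 5 := Module.Dual.eval (ZMod 5) V z with hev
  have hev0 : ev ≠ 0 := by
    intro h
    apply hz
    rw [← Module.forall_dual_apply_eq_zero_iff (ZMod 5)]
    intro φ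
    have := LinearMap.congr_fun h φ
    exact this
  have hsurj : Function.Surjective ev := LinearMap.surjective hev0
  have hrank := LinearMap.finrank_range_add_finrank_ker ev
  have hr1 : Module.finrank (ZMod 5) (LinearMap.range ev) = 1 := by
    rw [LinearMap.range_eq_top.2 hsurj, finrank_top, Module.finrank_self]
  have h5 : Nat.card (ZMod 5) = 5 := Nat.card_zmod 5
  have hker : Nat.card (LinearMap.ker ev) = 5 ^ Module.finrank (ZMod 5) (LinearMap.ker ev) := by
    have h1 : Nat.card (LinearMap.ker ev) =
        Nat.card (ZMod 5) ^ Module.finrank (ZMod 5) (LinearMap.ker ev) :=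
      Module.natCard_eq_pow_finrank
    rw [h1, h5]
  have hd : Nat.card (Module.Dual (ZMod 5) V) =
      5 ^ Module.finrank (ZMod 5) (Module.Dual (ZMod 5) V) := by
    have h1 : Nat.card (Module.Dual (ZMod 5) V) =
        Nat.card (ZMod 5) ^ Module.finrank (ZMod 5) (Module.Dual (ZMod 5) V) :=
      Module.natCard_eq_pow_finrank
    rw [h1, h5]
  have hq : Nat.card (LinearMap.ker ev) = q := by
    have h6 : 5 * Nat.card (LinearMap.ker ev) = 5 * q := by
      rw [← hc, hker]
      show _ = Nat.card (Module.Dual (ZMod 5) V)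
      rw [hd, ← hrank, hr1, pow_add, pow_one]
    omega
  rw [← hq, ← Fintype.card_subtype, ← Nat.card_eq_fintype_card]
  exact Nat.card_congr (Equiv.subtypeEquivRight fun φ => by
    rw [LinearMap.mem_ker]
    rfl)

end Pool.Agent.H84R3
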