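import Pool.Agent.H84R3.Defs

set_option autoImplicit false

open Finset
open scoped Pointwise

namespace Pool.Agent.H84R3

theorem dc2_sum {V : Type} [AddCommGroup V] [Module (ZMod 5) V] (A : Finset V)
    (φ : V →ₗ[ZMod 5] ZMod 5) (g : ZMod 5 → ℤ) :
    ∑ i : ZMod 5, (cnt A φ i : ℤ) * g i = ∑ x ∈ A, g (φ x) := by
  rw [← Finset.sum_fiberwise A (fun x => φ x) (fun x => g (φ x))]
  refine Finset.sum_congr rfl fun i _ => ?_
  rw [Finset.sum_congr rfl (fun x hx => by rw [(Finset.mem_filter.1 hx).2] :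
    ∀ x ∈ A.filter (fun x => φ x = i), g (φ x) = g i), Finset.sum_const, nsmul_eq_mul]
  rfl

theorem dc2_cnt {V : Type} [AddCommGroup V] [Module (ZMod 5) V] (A : Finset V)
    (φ : V →ₗ[ZMod 5] ZMod 5) (l : ZMod 5) :
    (cnt A φ l : ℤ) = ∑ w ∈ A, if φ w = l then (1 : ℤ) else 0 := by
  unfold cnt
  rw [Finset.sum_boole]

/-- the first sum -/
def dc2T {V : Type} [AddCommGroup V] [Module (ZMod 5) V] (A : Finset V)
    (φ : V →ₗ[ZMod 5] ZMod 5) : ℤ :=
  ∑ i : ZMod 5, ∑ j : ZMod 5, ∑ k : ZMod 5,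
      (cnt A φ i : ℤ) * cnt A φ j * cnt A φ k * cnt A φ (i + j + k)

/-- the second sum -/
def dc2P {V : Type} [AddCommGroup V] [Module (ZMod 5) V] (A : Finset V)
    (φ : V →ₗ[ZMod 5] ZMod 5) : ℤ := ∑ j : ZMod 5, (cnt A φ j : ℤ) ^ 2

theorem dc2T_eq {V : Type} [AddCommGroup V] [Module (ZMod 5) V] (A : Finset V)
    (φ : V →ₗ[ZMod 5] ZMod 5) :
    dc2T A φ = ∑ x ∈ A, ∑ y ∈ A, ∑ z ∈ A, ∑ w ∈ A,
      if φ w = φ x + φ y + φ z then (1 : ℤ) else 0 := by
  have h1 : dc2T A φ = ∑ i : ZMod 5, (cnt A φ i : ℤ) * ∑ j : ZMod 5, (cnt A φ j : ℤ) *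
      ∑ k : ZMod 5, (cnt A φ k : ℤ) * cnt A φ (i + j + k) := by
    unfold dc2T
    refine Finset.sum_congr rfl fun i _ => ?_
    rw [Finset.mul_sum]
    refine Finset.sum_congr rfl fun j _ => ?_
    rw [Finset.mul_sum, Finset.mul_sum]
    refine Finset.sum_congr rfl fun k _ => ?_
    ring
  rw [h1, dc2_sum A φ (fun i => ∑ j : ZMod 5, (cnt A φ j : ℤ) *
      ∑ k : ZMod 5, (cnt A φ k : ℤ) * cnt A φ (i + j + k))]
  refine Finset.sum_congr rfl fun x _ => ?_
  rw [dc2_sum A φ (fun j => ∑ k : ZMod 5, (cnt A φ k : ℤ) * cnt A φ (φ x + j + k))]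
  refine Finset.sum_congr rfl fun y _ => ?_
  rw [dc2_sum A φ (fun k => (cnt A φ (φ x + φ y + k) : ℤ))]
  refine Finset.sum_congr rfl fun z _ => ?_
  exact dc2_cnt A φ _

theorem dc2P_eq {V : Type} [AddCommGroup V] [Module (ZMod 5) V] (A : Finset V)
    (φ : V →ₗ[ZMod 5] ZMod 5) :
    dc2P A φ = ∑ x ∈ A, ∑ y ∈ A, if φ y = φ x then (1 : ℤ) else 0 := by
  have h1 : dc2P A φ = ∑ i : ZMod 5, (cnt A φ i : ℤ) * cnt A φ i := by
    unfold dc2P
    exact Finset.sum_congr rfl fun i _ => by ring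
  rw [h1, dc2_sum A φ (fun i => (cnt A φ i : ℤ))]
  exact Finset.sum_congr rfl fun x _ => dc2_cnt A φ _

theorem DC2 : DC2Stmt := by
  intro h1 V _ _ _ q hq hV A hA
  classical
  have hfin : Finite (V →ₗ[ZMod 5] ZMod 5) := DFunLike.finite _
  let _ : Fintype (V →ₗ[ZMod 5] ZMod 5) := Fintype.ofFinite _
  obtain ⟨c1, c2⟩ := h1 V q hV
  have hq0 : ∀ z : V, z ≠ 0 →
      ∑ φ : V →ₗ[ZMod 5] ZMod 5, (if φ z = 0 then (1 : ℤ) else 0) = q := by
    intro z hz
    rw [Finset.sum_boole]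
    have := c2 z hz
    rw [← this]
  have hT : ∑ φ : V →ₗ[ZMod 5] ZMod 5, dc2T A φ = (A.card : ℤ) ^ 4 * q := by
    simp only [dc2T_eq]
    rw [Finset.sum_comm]
    have e : ∀ x ∈ A, ∑ φ : V →ₗ[ZMod 5] ZMod 5, ∑ y ∈ A, ∑ z ∈ A, ∑ w ∈ A,
        (if φ w = φ x + φ y + φ z then (1 : ℤ) else 0) = (A.card : ℤ) ^ 3 * q := by
      intro x hx
      rw [Finset.sum_comm]
      have e2 : ∀ y ∈ A, ∑ φ : V →ₗ[ZMod 5] ZMod 5, ∑ z ∈ A, ∑ w ∈ A,
          (if φ w = φ x + φ y + φ z then (1 : ℤ) else 0) = (A.card : ℤ) ^ 2 * q := by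
        intro y hy
        rw [Finset.sum_comm]
        have e3 : ∀ z ∈ A, ∑ φ : V →ₗ[ZMod 5] ZMod 5, ∑ w ∈ A,
            (if φ w = φ x + φ y + φ z then (1 : ℤ) else 0) = (A.card : ℤ) * q := by
          intro z hz
          rw [Finset.sum_comm]
          have e4 : ∀ w ∈ A, ∑ φ : V →ₗ[ZMod 5] ZMod 5,
              (if φ w = φ x + φ y + φ z then (1 : ℤ) else 0) = q := by
            intro w hw
            have hne : x + y + z - w ≠ 0 := by
              intro h0
              have h2 := hA x hx y hy z hz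
              rw [sub_eq_zero.1 h0] at h2
              exact h2 hw
            rw [← hq0 _ hne]
            refine Finset.sum_congr rfl fun φ _ => ?_
            have hiff : (φ w = φ x + φ y + φ z) ↔ (φ (x + y + z - w) = 0) := by
              rw [map_sub, map_add, map_add, sub_eq_zero]
              exact eq_comm
            by_cases h3 : φ w = φ x + φ y + φ z
            · rw [if_pos h3, if_pos (hiff.1 h3)]
            · rw [if_neg h3, if_neg (fun h4 => h3 (hiff.2 h4))]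
          rw [Finset.sum_congr rfl e4, Finset.sum_const, nsmul_eq_mul]
        rw [Finset.sum_congr rfl e3, Finset.sum_const, nsmul_eq_mul]
        ring
      rw [Finset.sum_congr rfl e2, Finset.sum_const, nsmul_eq_mul]
      ring
    rw [Finset.sum_congr rfl e, Finset.sum_const, nsmul_eq_mul]
    ring
  have hP : ∑ φ : V →ₗ[ZMod 5] ZMod 5, dc2P A φ = (A.card : ℤ) ^ 2 * q + 4 * q * A.card := by
    simp only [dc2P_eq]
    rw [Finset.sum_comm]
    have e : ∀ x ∈ A, ∑ φ : V →ₗ[ZMod 5] ZMod 5, ∑ y ∈ A,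
        (if φ y = φ x then (1 : ℤ) else 0) = (A.card : ℤ) * q + 4 * q := by
      intro x hx
      rw [Finset.sum_comm]
      have e2 : ∀ y ∈ A, ∑ φ : V →ₗ[ZMod 5] ZMod 5, (if φ y = φ x then (1 : ℤ) else 0) =
          q + if y = x then (4 * q : ℤ) else 0 := by
        intro y hy
        by_cases hxy : y = x
        · subst hxy
          simp only [if_true]
          rw [Finset.sum_const, Finset.card_univ, c1, nsmul_eq_mul]
          push_cast
          ring
        · rw [if_neg hxy, add_zero, ← hq0 _ (sub_ne_zero.2 hxy)]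
          refine Finset.sum_congr rfl fun φ _ => ?_
          have hiff : (φ y = φ x) ↔ (φ (y - x) = 0) := by
            rw [map_sub, sub_eq_zero]
          by_cases h3 : φ y = φ x
          · rw [if_pos h3, if_pos (hiff.1 h3)]
          · rw [if_neg h3, if_neg (fun h4 => h3 (hiff.2 h4))]
      rw [Finset.sum_congr rfl e2, Finset.sum_add_distrib, Finset.sum_const, nsmul_eq_mul,
        Finset.sum_ite_eq' A x, if_pos hx]
    rw [Finset.sum_congr rfl e, Finset.sum_const, nsmul_eq_mul]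
    ring
  have hT0 : dc2T A 0 = (A.card : ℤ) ^ 4 := by
    rw [dc2T_eq]
    simp only [LinearMap.zero_apply, add_zero, if_true, Finset.sum_const, nsmul_eq_mul, mul_one]
    ring
  have hP0 : dc2P A 0 = (A.card : ℤ) ^ 2 := by
    rw [dc2P_eq]
    simp only [LinearMap.zero_apply, if_true, Finset.sum_const, nsmul_eq_mul, mul_one]
    ring
  have hT1 := Finset.add_sum_erase Finset.univ (fun φ => dc2T A φ)
    (Finset.mem_univ (0 : V →ₗ[ZMod 5] ZMod 5))
  have hP1 := Finset.add_sum_erase Finset.univ (fun φ => dc2P A φ)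
    (Finset.mem_univ (0 : V →ₗ[ZMod 5] ZMod 5))
  rw [hT] at hT1
  rw [hP] at hP1
  rw [hT0] at hT1
  rw [hP0] at hP1
  have hcard : (Finset.univ.erase (0 : V →ₗ[ZMod 5] ZMod 5)).card = 5 * q - 1 := by
    rw [Finset.card_erase_of_mem (Finset.mem_univ _), Finset.card_univ, c1]
  have hne : (Finset.univ.erase (0 : V →ₗ[ZMod 5] ZMod 5)).Nonempty := by
    rw [← Finset.card_pos, hcard]
    omega
  obtain ⟨φ, hφ, hle⟩ := Finset.exists_le_of_sum_le hne
    (f := fun φ => dc2T A φ * (5 * q - A.card))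
    (g := fun φ => (A.card : ℤ) ^ 3 * (A.card * q - dc2P A φ)) (by
      rw [← Finset.sum_mul, ← Finset.mul_sum, Finset.sum_sub_distrib, Finset.sum_const, hcard,
        nsmul_eq_mul]
      have h5 : ((5 * q - 1 : ℕ) : ℤ) = 5 * q - 1 := by
        rw [Nat.cast_sub (by omega)]
        push_cast
        ring
      rw [h5]
      have e1 : ∑ φ ∈ Finset.univ.erase (0 : V →ₗ[ZMod 5] ZMod 5), dc2T A φ =
          (A.card : ℤ) ^ 4 * q - (A.card : ℤ) ^ 4 := by linarith
      have e2 : ∑ φ ∈ Finset.univ.erase (0 : V →ₗ[ZMod 5] ZMod 5), dc2P A φ =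
          (A.card : ℤ) ^ 2 * q + 4 * q * A.card - (A.card : ℤ) ^ 2 := by linarith
      rw [e1, e2]
      apply le_of_eq
      ring)
  exact ⟨φ, Finset.ne_of_mem_erase hφ, hle⟩

end Pool.Agent.H84R3
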