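import Mathlib
import Pool.Agent.Helper730.Kneser

set_option autoImplicit false

open Finset
open scoped Pointwise

namespace Pool.Agent.H84R3

open Pool.Agent.Helper730.Kneser (fs stab)

/-- `A` is `(3,1)`-sum-free. -/
def SF {V : Type} [AddCommGroup V] (A : Finset V) : Prop :=
  ∀ x ∈ A, ∀ y ∈ A, ∀ z ∈ A, x + y + z ∉ A

/-- K1: Kneser's theorem for four sets whose sumset misses `0`. -/
def K1Stmt : Prop := ∀ (K : Type) [AddCommGroup K] [Fintype K] [DecidableEq K]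
  (C1 C2 C3 C4 : Finset K), C1.Nonempty → C2.Nonempty → C3.Nonempty → C4.Nonempty →
  (∀ a ∈ C1, ∀ b ∈ C2, ∀ c ∈ C3, ∀ d ∈ C4, a + b + c + d ≠ 0) →
  ∃ H : AddSubgroup K, H ≠ ⊤ ∧
    (C1 + fs H).card + (C2 + fs H).card + (C3 + fs H).card + (C4 + fs H).card
      ≤ Fintype.card K + 2 * (fs H).card

/-- size condition coming from a pattern with three copies of `X` and one of `Y` -/
def C31 (K : Type) (X Y : Finset K) : Prop :=
  25 * (3 * X.card + Y.card) ≤ 27 * Nat.card K ∨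
  (5 * X.card ≤ Nat.card K ∧ 5 * Y.card ≤ 4 * Nat.card K) ∨
  (5 * X.card ≤ 2 * Nat.card K ∧ 5 * Y.card ≤ Nat.card K)

/-- size condition coming from a pattern with two copies of `X` and two of `Y` -/
def C22 (K : Type) (X Y : Finset K) : Prop :=
  25 * (2 * X.card + 2 * Y.card) ≤ 27 * Nat.card K ∨
  (5 * X.card ≤ Nat.card K ∧ 5 * Y.card ≤ 2 * Nat.card K) ∨
  (5 * X.card ≤ 2 * Nat.card K ∧ 5 * Y.card ≤ Nat.card K)

/-- K2 -/
def K2Stmt : Prop := ∀ (K : Type) [AddCommGroup K] [Module (ZMod 5) K] [Fintype K]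
  [DecidableEq K] (X Y : Finset K), X.Nonempty → Y.Nonempty →
  ((∀ x ∈ X, ∀ y ∈ X, ∀ z ∈ X, x + y + z ∉ Y) → C31 K X Y ∧ X.card + Y.card ≤ Nat.card K) ∧
  ((∀ x ∈ X, ∀ y ∈ X, ∀ z ∈ Y, x + y + z ∉ X) → C31 K X Y) ∧
  ((∀ x ∈ X, ∀ y ∈ X, ∀ z ∈ Y, x + y + z ∉ Y) → C22 K X Y)

/-- number of elements of `A` on which `φ` takes the value `j` -/
def cnt {V : Type} [AddCommGroup V] [Module (ZMod 5) V] (A : Finset V)
    (φ : V →ₗ[ZMod 5] ZMod 5) (j : ZMod 5) : ℕ := (A.filter (fun x => φ x = j)).card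

/-- F1: fibres over a hyperplane. -/
def F1Stmt : Prop := ∀ (V : Type) [AddCommGroup V] [Module (ZMod 5) V] [Fintype V]
  (A : Finset V) (φ : V →ₗ[ZMod 5] ZMod 5), φ ≠ 0 → SF A →
  5 * Nat.card (LinearMap.ker φ) = Nat.card V ∧
  ∃ B : ZMod 5 → Finset (LinearMap.ker φ),
    (∀ j, (B j).card = cnt A φ j) ∧
    ∀ i j k, ∀ x ∈ B i, ∀ y ∈ B j, ∀ z ∈ B k, x + y + z ∉ B (i + j + k)

/-- DC1: counting linear functionals. -/
def DC1Stmt : Prop := ∀ (V : Type) [AddCommGroup V] [Module (ZMod 5) V] [Fintype V]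
  [Fintype (V →ₗ[ZMod 5] ZMod 5)] (q : ℕ), Nat.card V = 5 * q →
  Fintype.card (V →ₗ[ZMod 5] ZMod 5) = 5 * q ∧
  ∀ z : V, z ≠ 0 →
    (Finset.univ.filter (fun φ : V →ₗ[ZMod 5] ZMod 5 => φ z = 0)).card = q

/-- DC2: double counting over all nonzero functionals (uses DC1Stmt as a hypothesis). -/
def DC2Stmt : Prop := DC1Stmt → ∀ (V : Type) [AddCommGroup V] [Module (ZMod 5) V] [Fintype V]
  (q : ℕ), 0 < q → Nat.card V = 5 * q → ∀ A : Finset V, SF A →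
  ∃ φ : V →ₗ[ZMod 5] ZMod 5, φ ≠ 0 ∧
    (∑ i : ZMod 5, ∑ j : ZMod 5, ∑ k : ZMod 5,
      (cnt A φ i : ℤ) * cnt A φ j * cnt A φ k * cnt A φ (i + j + k)) * (5 * q - A.card)
      ≤ (A.card : ℤ) ^ 3 * (A.card * q - ∑ j : ZMod 5, (cnt A φ j : ℤ) ^ 2)

/-- the number of weighted solutions of `i + j + k = l` -/
def TT (a : ZMod 5 → ℝ) : ℝ :=
  ∑ i : ZMod 5, ∑ j : ZMod 5, ∑ k : ZMod 5, a i * a j * a k * a (i + j + k)

/-- PI: the polynomial inequality. -/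
def PIStmt : Prop := ∀ a : ZMod 5 → ℝ, (∀ j, 0 ≤ a j) → a 0 ≤ 1 / 5 → 1 < ∑ j, a j →
  ∑ j, a j < 5 →
  |a 1 - a 4| + |a 2 - a 3| ≤ 11 / 25 * ∑ j, a j →
  (∑ j, a j) ^ 3 * ((∑ j, a j) - ∑ j, a j ^ 2) < TT a * (5 - ∑ j, a j)

/-- RI: the linear inequality. -/
def RIStmt : Prop := ∀ a : ZMod 5 → ℝ, (∀ j, 0 ≤ a j) → a 0 ≤ 1 / 5 → (∀ j, a j ≤ 1) →
  1 < ∑ j, a j →
  -- F
  (∀ j, j ≠ 0 → 0 < a 0 → 0 < a j →
    2 * a 0 + 2 * a j ≤ 27 / 25 ∨ (a 0 ≤ 1 / 5 ∧ a j ≤ 2 / 5) ∨ (a 0 ≤ 2 / 5 ∧ a j ≤ 1 / 5)) →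
  -- E
  (∀ j, j ≠ 0 → 0 < a j → 0 < a (-j) →
    3 * a j + a (-j) ≤ 27 / 25 ∨ (a j ≤ 1 / 5 ∧ a (-j) ≤ 4 / 5) ∨ (a j ≤ 2 / 5 ∧ a (-j) ≤ 1 / 5)) →
  -- T
  (∀ j, j ≠ 0 → 0 < a j → 0 < a (3 * j) →
    (3 * a j + a (3 * j) ≤ 27 / 25 ∨ (a j ≤ 1 / 5 ∧ a (3 * j) ≤ 4 / 5) ∨
      (a j ≤ 2 / 5 ∧ a (3 * j) ≤ 1 / 5)) ∧ a j + a (3 * j) ≤ 1) →
  |a 1 - a 4| + |a 2 - a 3| ≤ 11 / 25 * ∑ j, a j

/-- Main: elementary abelian 5-groups. -/
def MainStmt : Prop := ∀ (n : ℕ) (V : Type) [AddCommGroup V] [Module (ZMod 5) V] [Fintype V],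
  Nat.card V = 5 ^ n → ∀ A : Finset V, SF A → 5 * A.card ≤ Nat.card V

/-- AS: assembly. -/
def ASStmt : Prop := K2Stmt → F1Stmt → DC1Stmt → DC2Stmt → PIStmt → RIStmt → MainStmt

/-- W1: from exponent 5 to groups killed by 10. -/
def W1Stmt : Prop := MainStmt → ∀ (G : Type) [AddCommGroup G] [Fintype G],
  (∀ x : G, (10 : ℕ) • x = 0) → ∀ A : Finset G, SF A → 5 * A.card ≤ Nat.card G

/-- LB: the lower bound. -/
def LBStmt : Prop := ∀ (G : Type) [AddCommGroup G] [Fintype G],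
  (AddMonoid.exponent G = 5 ∨ AddMonoid.exponent G = 10) →
  ∃ A : Finset G, SF A ∧ 5 * A.card = Nat.card G

/-- FR: the final form (the equation of the frozen statement for `k = 3`, `l = 1`). -/
def FRStmt : Prop :=
  (∀ (G : Type) [AddCommGroup G] [Fintype G],
    (∀ x : G, (10 : ℕ) • x = 0) → ∀ A : Finset G, SF A → 5 * A.card ≤ Nat.card G) →
  LBStmt →
  ∀ (G : Type) [AddCommGroup G] [Fintype G] [DecidableEq G] (κ : ℕ) [NeZero κ],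
      AddMonoid.exponent G = κ → κ = 5 ∨ κ = 10 →
        ((Finset.univ.filter (fun A : Finset G =>
            Disjoint ((Fintype.piFinset (fun _ : Fin 3 => A)).image (fun f : Fin 3 → G => ∑ i, f i))
                     ((Fintype.piFinset (fun _ : Fin 1 => A)).image (fun f : Fin 1 → G => ∑ i, f i)))).sup
            Finset.card) * κ
        = ((Finset.univ.filter (fun A : Finset (ZMod κ) =>
            Disjoint ((Fintype.piFinset (fun _ : Fin 3 => A)).image (fun f : Fin 3 → ZMod κ => ∑ i, f i))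
                     ((Fintype.piFinset (fun _ : Fin 1 => A)).image (fun f : Fin 1 → ZMod κ => ∑ i, f i)))).sup
            Finset.card) * Fintype.card G

end Pool.Agent.H84R3
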