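import Pool.Agent.H84R3.Defs

set_option autoImplicit false

open Finset

namespace Pool.Agent.H84R3

theorem F1 : F1Stmt := by
  intro V _ _ _ A φ hφ hA
  classical
  have : Fact (Nat.Prime 5) := ⟨by norm_num⟩
  obtain ⟨v, hv⟩ : ∃ v, φ v ≠ 0 := by
    by_contra hcon
    push Not at hcon
    exact hφ (LinearMap.ext fun x => by simpa using hcon x)
  obtain ⟨v0, h0⟩ : ∃ v0, φ v0 = 1 := by
    refine ⟨(φ v)⁻¹ • v, ?_⟩
    rw [map_smul, smul_eq_mul, inv_mul_cancel₀ hv]
  have hker : ∀ (x : V) (j : ZMod 5), φ x = j → x - j • v0 ∈ LinearMap.ker φ := by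
    intro x j hx
    rw [LinearMap.mem_ker, map_sub, map_smul, h0, hx, smul_eq_mul, mul_one, sub_self]
  have : Fintype (LinearMap.ker φ) := Fintype.ofFinite _
  refine ⟨?_, fun j => Finset.univ.filter (fun k : LinearMap.ker φ => (k : V) + j • v0 ∈ A),
    ?_, ?_⟩
  · let E : V ≃ (LinearMap.ker φ) × ZMod 5 :=
      { toFun := fun x => (⟨x - φ x • v0, hker x _ rfl⟩, φ x)
        invFun := fun p => (p.1 : V) + p.2 • v0
        left_inv := fun x => by simp
        right_inv := fun p => by
          have hp : φ ((p.1 : V) + p.2 • v0) = p.2 := by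
            rw [map_add, map_smul, h0, LinearMap.mem_ker.1 p.1.2, smul_eq_mul, mul_one, zero_add]
          refine Prod.ext (Subtype.ext ?_) hp
          simp only [hp]
          rw [add_sub_cancel_right] }
    rw [Nat.card_congr E, Nat.card_prod, Nat.card_zmod, mul_comm]
  · intro j
    unfold cnt
    refine Finset.card_bij (fun k _ => (k : V) + j • v0) ?_ ?_ ?_
    · intro k hk
      rw [Finset.mem_filter] at hk ⊢
      refine ⟨hk.2, ?_⟩
      rw [map_add, map_smul, h0, LinearMap.mem_ker.1 k.2, smul_eq_mul, mul_one, zero_add]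
    · intro k _ k' _ h
      exact Subtype.ext (add_right_cancel h)
    · intro x hx
      rw [Finset.mem_filter] at hx
      refine ⟨⟨x - j • v0, hker x j hx.2⟩, ?_, ?_⟩
      · rw [Finset.mem_filter]
        refine ⟨Finset.mem_univ _, ?_⟩
        simpa using hx.1
      · simp
  · intro i j k x hx y hy z hz hxyz
    rw [Finset.mem_filter] at hx hy hz hxyz
    refine hA _ hx.2 _ hy.2 _ hz.2 ?_
    have e : (x : V) + i • v0 + ((y : V) + j • v0) + ((z : V) + k • v0) =
        ((x + y + z : LinearMap.ker φ) : V) + (i + j + k) • v0 := by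
      simp only [Submodule.coe_add, add_smul]
      abel
    rw [e]
    exact hxyz.2

end Pool.Agent.H84R3
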