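import Pool.Agent.H84R3.Defs

/-! FR: the final form (helper624). -/

set_option autoImplicit false

open Finset
open scoped Pointwise

namespace Pool.Agent.H84R3

theorem FR_iff {G : Type} [AddCommGroup G] [DecidableEq G] (A : Finset G) :
    Disjoint ((Fintype.piFinset (fun _ : Fin 3 => A)).image (fun f : Fin 3 → G => ∑ i, f i))
      ((Fintype.piFinset (fun _ : Fin 1 => A)).image (fun f : Fin 1 → G => ∑ i, f i)) ↔ SF A := by
  rw [Finset.disjoint_left]
  constructor
  · intro h x hx y hy z hz hxyz
    refine h (a := x + y + z) ?_ ?_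
    · rw [Finset.mem_image]
      refine ⟨![x, y, z], ?_, ?_⟩
      · rw [Fintype.mem_piFinset]
        intro i
        fin_cases i
        · exact hx
        · exact hy
        · exact hz
      · simp [Fin.sum_univ_three]
    · rw [Finset.mem_image]
      refine ⟨fun _ => x + y + z, ?_, ?_⟩
      · rw [Fintype.mem_piFinset]
        intro i
        exact hxyz
      · simp
  · intro h u hu hu'
    rw [Finset.mem_image] at hu hu'
    obtain ⟨f, hf, rfl⟩ := hu
    obtain ⟨g, hg, hgu⟩ := hu'
    rw [Fintype.mem_piFinset] at hf hg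
    have h1 : ∑ i, g i = g 0 := by simp
    have h2 : ∑ i, f i = f 0 + f 1 + f 2 := Fin.sum_univ_three f
    rw [h1, h2] at hgu
    have h3 := hg 0
    rw [hgu] at h3
    exact h _ (hf 0) _ (hf 1) _ (hf 2) h3

theorem FR_key (hU : ∀ (G : Type) [AddCommGroup G] [Fintype G],
    (∀ x : G, (10 : ℕ) • x = 0) → ∀ A : Finset G, SF A → 5 * A.card ≤ Nat.card G)
    (hLB : LBStmt) (G : Type) [AddCommGroup G] [Fintype G] [DecidableEq G]
    (hG : AddMonoid.exponent G = 5 ∨ AddMonoid.exponent G = 10) :
    5 * ((Finset.univ.filter (fun A : Finset G =>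
      Disjoint ((Fintype.piFinset (fun _ : Fin 3 => A)).image (fun f : Fin 3 → G => ∑ i, f i))
        ((Fintype.piFinset (fun _ : Fin 1 => A)).image (fun f : Fin 1 → G => ∑ i, f i)))).sup
          Finset.card) = Fintype.card G := by
  have h10 : ∀ x : G, (10 : ℕ) • x = 0 := by
    intro x
    have h1 := AddMonoid.exponent_nsmul_eq_zero x
    rcases hG with h | h
    · rw [h] at h1
      have : (10 : ℕ) = 2 * 5 := by norm_num
      rw [this, mul_nsmul', h1, nsmul_zero]
    · rw [h] at h1
      exact h1
  obtain ⟨A0, hA0, hc⟩ := hLB G hG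
  have hsup : (Finset.univ.filter (fun A : Finset G =>
      Disjoint ((Fintype.piFinset (fun _ : Fin 3 => A)).image (fun f : Fin 3 → G => ∑ i, f i))
        ((Fintype.piFinset (fun _ : Fin 1 => A)).image (fun f : Fin 1 → G => ∑ i, f i)))).sup
          Finset.card = A0.card := by
    apply le_antisymm
    · refine Finset.sup_le fun A hA => ?_
      rw [Finset.mem_filter] at hA
      have h1 := hU G h10 A ((FR_iff A).1 hA.2)
      omega
    · refine Finset.le_sup (f := Finset.card) ?_
      rw [Finset.mem_filter]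
      exact ⟨Finset.mem_univ _, (FR_iff A0).2 hA0⟩
  rw [hsup, hc, Nat.card_eq_fintype_card]

theorem FR : FRStmt := by
  intro hU hLB G _ _ _ κ _ hexp hκ
  have h1 := FR_key hU hLB G (by rw [hexp]; exact hκ)
  have h2 := FR_key hU hLB (ZMod κ) (by rw [ZMod.exponent]; exact hκ)
  rw [ZMod.card] at h2
  set a := (Finset.univ.filter (fun A : Finset G =>
      Disjoint ((Fintype.piFinset (fun _ : Fin 3 => A)).image (fun f : Fin 3 → G => ∑ i, f i))
        ((Fintype.piFinset (fun _ : Fin 1 => A)).image (fun f : Fin 1 → G => ∑ i, f i)))).sup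
          Finset.card with ha
  set b := (Finset.univ.filter (fun A : Finset (ZMod κ) =>
      Disjoint ((Fintype.piFinset (fun _ : Fin 3 => A)).image (fun f : Fin 3 → ZMod κ => ∑ i, f i))
        ((Fintype.piFinset (fun _ : Fin 1 => A)).image (fun f : Fin 1 → ZMod κ => ∑ i, f i)))).sup
          Finset.card with hb
  rw [← h1]
  calc a * κ = a * (5 * b) := by rw [h2]
    _ = b * (5 * a) := by ring

end Pool.Agent.H84R3
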