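import Pool.Agent.H84R3.Defs

set_option autoImplicit false

open Finset
open scoped Pointwise

namespace Pool.Agent.H84R3

open Pool.Agent.Helper730.Kneser

section K1aux

variable {K : Type} [AddCommGroup K] [Fintype K] [DecidableEq K]

theorem K1_stab_le (X Y : Finset K) : stab X ≤ stab (X + Y) := by
  intro g hg
  apply mem_stab_of_forall
  intro z hz
  obtain ⟨x, hx, y, hy, rfl⟩ := Finset.mem_add.1 hz
  have h1 : x + y + g = (x + g) + y := by abel
  rw [h1]
  exact Finset.add_mem_add (stab_add hg hx) hy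

theorem K1_le_stab (X : Finset K) (H : AddSubgroup K) : H ≤ stab (X + fs H) := by
  intro g hg
  apply mem_stab_of_forall
  intro z hz
  obtain ⟨x, hx, y, hy, rfl⟩ := Finset.mem_add.1 hz
  rw [add_assoc]
  exact Finset.add_mem_add hx (mem_fs.2 (H.add_mem (mem_fs.1 hy) hg))

theorem K1_fs_fs (H : AddSubgroup K) : fs H + fs H = fs H := by
  ext z
  rw [Finset.mem_add, mem_fs]
  constructor
  · rintro ⟨x, hx, y, hy, rfl⟩
    exact H.add_mem (mem_fs.1 hx) (mem_fs.1 hy)
  · intro hz
    exact ⟨z, mem_fs.2 hz, 0, mem_fs.2 H.zero_mem, add_zero z⟩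

theorem K1_step (A B Z S : Finset K) (hA : A.Nonempty) (hB : B.Nonempty)
    (hS : A + (B + fs (stab S)) + Z = S) :
    (A + fs (stab S)).card + (B + fs (stab S)).card ≤
      (A + B + fs (stab S)).card + (fs (stab S)).card := by
  set H := stab S with hH
  have h1 : stab (A + (B + fs H)) = H := by
    apply le_antisymm
    · have h2 := K1_stab_le (A + (B + fs H)) Z
      rw [hS] at h2
      exact h2
    · have h2 := K1_le_stab (A + B) H
      rw [add_assoc] at h2
      exact h2
  have h3 := kneser' A (B + fs H) hA (hB.add (fs_nonempty H))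
  rw [h1, add_assoc B, K1_fs_fs, ← add_assoc] at h3
  exact h3

end K1aux

theorem K1 : K1Stmt := by
  intro K _ _ _ C1 C2 C3 C4 h1 h2 h3 h4 hz
  set S : Finset K := C1 + C2 + C3 + C4 with hS
  set H := stab S with hH
  have hSH : S + fs H = S := add_fs_stab S H le_rfl
  have h0 : (0 : K) ∉ S := by
    intro h
    obtain ⟨u, hu, d, hd, e⟩ := Finset.mem_add.1 h
    obtain ⟨v, hv, c, hc, rfl⟩ := Finset.mem_add.1 hu
    obtain ⟨a, ha, b, hb, rfl⟩ := Finset.mem_add.1 hv
    exact hz a ha b hb c hc d hd e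
  have hSne : S.Nonempty := ((h1.add h2).add h3).add h4
  have hneg : ∀ x ∈ S, x ∉ H := by
    intro x hx hxH
    apply h0
    have := stab_add (H.neg_mem hxH) hx
    rwa [add_neg_cancel] at this
  have s1 := K1_step (C1 + C2 + C3) C4 {0} S ((h1.add h2).add h3) h4 (by
    rw [← hH, ← add_assoc, ← hS, hSH]
    exact add_zero S)
  have s2 := K1_step (C1 + C2) C3 C4 S (h1.add h2) h3 (by
    rw [← hH, ← add_assoc, add_right_comm _ (fs H) C4, ← hS, hSH])
  have s3 := K1_step C1 C2 (C3 + C4) S h1 h2 (by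
    rw [← hH]
    have e : C1 + (C2 + fs H) + (C3 + C4) = C1 + C2 + C3 + C4 + fs H := by abel
    rw [e, ← hS, hSH])
  rw [← hH] at s1 s2 s3
  rw [← hS, hSH] at s1
  have hdisj : S.card + (fs H).card ≤ Fintype.card K := by
    have hd : Disjoint S (fs H) := by
      rw [Finset.disjoint_left]
      intro x hx hx'
      exact hneg x hx (mem_fs.1 hx')
    rw [← Finset.card_union_of_disjoint hd]
    exact Finset.card_le_univ _
  refine ⟨H, ?_, ?_⟩
  · intro ht
    obtain ⟨x, hx⟩ := hSne
    exact hneg x hx (ht ▸ AddSubgroup.mem_top x)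
  · omega

end Pool.Agent.H84R3
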