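import Pool.Agent.H84R3.Defs

set_option autoImplicit false

open Finset
open scoped Pointwise

namespace Pool.Agent.H84R3

open Pool.Agent.Helper730.Kneser (fs stab mem_fs fs_nonempty fs_card_pos)

theorem K2_dvd {K : Type} [AddCommGroup K] [Fintype K] [DecidableEq K] (H : AddSubgroup K)
    (C : Finset K) : (fs H).card ∣ (C + fs H).card := by
  apply Finset.card_dvd_card_add_right
  rintro _ ⟨a, ha, rfl⟩ _ ⟨b, hb, rfl⟩ hab
  rw [Function.onFun, Finset.disjoint_left]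
  intro x hxa hxb
  apply hab
  obtain ⟨u, hu, hu'⟩ := Finset.mem_vadd_finset.1 hxa
  obtain ⟨v, hv, hv'⟩ := Finset.mem_vadd_finset.1 hxb
  rw [mem_fs] at hu hv
  have key : a + u = b + v := hu'.trans hv'.symm
  ext y
  constructor
  · intro hy
    obtain ⟨w, hw, rfl⟩ := Finset.mem_vadd_finset.1 hy
    refine Finset.mem_vadd_finset.2
      ⟨v - u + w, mem_fs.2 (H.add_mem (H.sub_mem hv hu) (mem_fs.1 hw)), ?_⟩
    show b + (v - u + w) = a + w
    have h1 : b = a + u - v := by rw [key]; abel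
    rw [h1]
    abel
  · intro hy
    obtain ⟨w, hw, rfl⟩ := Finset.mem_vadd_finset.1 hy
    refine Finset.mem_vadd_finset.2
      ⟨u - v + w, mem_fs.2 (H.add_mem (H.sub_mem hu hv) (mem_fs.1 hw)), ?_⟩
    show a + (u - v + w) = b + w
    have h1 : a = b + v - u := by rw [← key]; abel
    rw [h1]
    abel

theorem K2_size {K : Type} [AddCommGroup K] [Fintype K] [DecidableEq K] (H : AddSubgroup K)
    (C : Finset K) (hC : C.Nonempty) :
    ∃ n : ℕ, 1 ≤ n ∧ (C + fs H).card = n * (fs H).card ∧ C.card ≤ n * (fs H).card := by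
  obtain ⟨n, hn⟩ := K2_dvd H C
  rw [mul_comm] at hn
  refine ⟨n, ?_, hn, ?_⟩
  · rcases Nat.eq_zero_or_pos n with h | h
    · subst h
      rw [zero_mul, Finset.card_eq_zero] at hn
      exact absurd hn (hC.add (fs_nonempty H)).ne_empty
    · exact h
  · rw [← hn]
    apply Finset.card_le_card
    intro x hx
    have := Finset.add_mem_add hx (mem_fs.2 H.zero_mem)
    rwa [add_zero] at this

theorem K2_index {K : Type} [AddCommGroup K] [Module (ZMod 5) K] [Fintype K] [DecidableEq K]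
    (H : AddSubgroup K) (hH : H ≠ ⊤) :
    Nat.card K = 5 * (fs H).card ∨ 25 * (fs H).card ≤ Nat.card K := by
  haveI : Fact (Nat.Prime 5) := ⟨by norm_num⟩
  have h1 : Nat.card H = (fs H).card := by
    have h0 : Nat.card H = Nat.card {x // x ∈ fs H} :=
      Nat.card_congr (Equiv.subtypeEquivRight fun x => mem_fs.symm)
    rw [h0, Nat.card_eq_fintype_card, Fintype.card_coe]
  have h2 := AddSubgroup.card_mul_index H
  have h3 : Nat.card K = 5 ^ (Module.finrank (ZMod 5) K) := by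
    have := Module.card_eq_pow_finrank (K := ZMod 5) (V := K)
    rw [Nat.card_eq_fintype_card, this, ZMod.card]
  have h4 : H.index ∣ 5 ^ (Module.finrank (ZMod 5) K) := by
    rw [← h3, ← h2]
    exact Dvd.intro_left _ rfl
  obtain ⟨t, -, ht⟩ := (Nat.dvd_prime_pow (by norm_num : Nat.Prime 5)).1 h4
  rcases t with _ | _ | t
  · exfalso
    apply hH
    rw [← AddSubgroup.index_eq_one, ht, pow_zero]
  · left
    rw [← h2, ht, h1]
    ring
  · right
    rw [← h2, ht, h1]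
    have h5 : 1 ≤ 5 ^ t := Nat.one_le_pow _ _ (by norm_num)
    have h6 : 5 ^ (t + 1 + 1) = 5 ^ t * 25 := by ring
    rw [h6]
    nlinarith [Nat.zero_le ((fs H).card)]

theorem K2_four (h : K1Stmt) {K : Type} [AddCommGroup K] [Module (ZMod 5) K] [Fintype K]
    [DecidableEq K] (C1 C2 C3 C4 : Finset K) (h1 : C1.Nonempty) (h2 : C2.Nonempty)
    (h3 : C3.Nonempty) (h4 : C4.Nonempty)
    (hs : ∀ a ∈ C1, ∀ b ∈ C2, ∀ c ∈ C3, ∀ d ∈ C4, a + b + c + d ≠ 0) :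
    ∃ g n1 n2 n3 n4 : ℕ, 0 < g ∧ 1 ≤ n1 ∧ 1 ≤ n2 ∧ 1 ≤ n3 ∧ 1 ≤ n4 ∧ C1.card ≤ n1 * g ∧
      C2.card ≤ n2 * g ∧ C3.card ≤ n3 * g ∧ C4.card ≤ n4 * g ∧
      ((Nat.card K = 5 * g ∧ n1 + n2 + n3 + n4 ≤ 7) ∨
        25 * (C1.card + C2.card + C3.card + C4.card) ≤ 27 * Nat.card K) := by
  obtain ⟨H, hH, hle⟩ := h K C1 C2 C3 C4 h1 h2 h3 h4 hs
  obtain ⟨n1, a1, b1, c1⟩ := K2_size H C1 h1
  obtain ⟨n2, a2, b2, c2⟩ := K2_size H C2 h2
  obtain ⟨n3, a3, b3, c3⟩ := K2_size H C3 h3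
  obtain ⟨n4, a4, b4, c4⟩ := K2_size H C4 h4
  have hg := fs_card_pos H
  rw [b1, b2, b3, b4, ← Nat.card_eq_fintype_card] at hle
  refine ⟨(fs H).card, n1, n2, n3, n4, hg, a1, a2, a3, a4, c1, c2, c3, c4, ?_⟩
  rcases K2_index H hH with h5 | h5
  · left
    refine ⟨h5, ?_⟩
    rw [h5] at hle
    by_contra hc
    have h6 : 8 ≤ n1 + n2 + n3 + n4 := by omega
    nlinarith
  · right
    nlinarith

theorem K2_31 {N g x y n1 n2 n3 n4 : ℕ} (h1 : 1 ≤ n1) (h2 : 1 ≤ n2) (h3 : 1 ≤ n3)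
    (h4 : 1 ≤ n4) (c1 : x ≤ n1 * g) (c2 : x ≤ n2 * g) (c3 : x ≤ n3 * g) (c4 : y ≤ n4 * g)
    (hN : N = 5 * g) (hs : n1 + n2 + n3 + n4 ≤ 7) :
    (5 * x ≤ N ∧ 5 * y ≤ 4 * N) ∨ (5 * x ≤ 2 * N ∧ 5 * y ≤ N) := by
  subst hN
  have i1 : n1 ≤ 4 := by omega
  have i2 : n2 ≤ 4 := by omega
  have i3 : n3 ≤ 4 := by omega
  have i4 : n4 ≤ 4 := by omega
  interval_cases n1 <;> interval_cases n2 <;> interval_cases n3 <;> interval_cases n4 <;> omega

theorem K2_22 {N g x y n1 n2 n3 n4 : ℕ} (h1 : 1 ≤ n1) (h2 : 1 ≤ n2) (h3 : 1 ≤ n3)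
    (h4 : 1 ≤ n4) (c1 : x ≤ n1 * g) (c2 : x ≤ n2 * g) (c3 : y ≤ n3 * g) (c4 : y ≤ n4 * g)
    (hN : N = 5 * g) (hs : n1 + n2 + n3 + n4 ≤ 7) :
    (5 * x ≤ N ∧ 5 * y ≤ 2 * N) ∨ (5 * x ≤ 2 * N ∧ 5 * y ≤ N) := by
  subst hN
  have i1 : n1 ≤ 4 := by omega
  have i2 : n2 ≤ 4 := by omega
  have i3 : n3 ≤ 4 := by omega
  have i4 : n4 ≤ 4 := by omega
  interval_cases n1 <;> interval_cases n2 <;> interval_cases n3 <;> interval_cases n4 <;> omega

theorem K2 (h : K1Stmt) : K2Stmt := by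
  intro K _ _ _ _ X Y hX hY
  have hneg : ∀ Z : Finset K, Z.Nonempty → (-Z).Nonempty := fun Z hZ => hZ.neg
  refine ⟨fun hs => ⟨?_, ?_⟩, fun hs => ?_, fun hs => ?_⟩
  · have h0 : ∀ a ∈ X, ∀ b ∈ X, ∀ c ∈ X, ∀ d ∈ -Y, a + b + c + d ≠ 0 := by
      intro a ha b hb c hc d hd h0
      refine hs a ha b hb c hc ?_
      have h1 : a + b + c = -d := eq_neg_of_add_eq_zero_left h0
      rw [h1]
      exact Finset.mem_neg'.1 hd
    obtain ⟨g, n1, n2, n3, n4, hg, a1, a2, a3, a4, c1, c2, c3, c4, h5 | h5⟩ :=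
      K2_four h X X X (-Y) hX hX hX (hneg Y hY) h0
    · rw [Finset.card_neg] at c4
      exact Or.inr (K2_31 a1 a2 a3 a4 c1 c2 c3 c4 h5.1 h5.2)
    · rw [Finset.card_neg] at h5
      left
      omega
  · obtain ⟨x0, hx0⟩ := hX
    have h1 : Disjoint (X.image (fun x => x + x0 + x0)) Y := by
      rw [Finset.disjoint_left]
      intro z hz hzY
      obtain ⟨x, hx, rfl⟩ := Finset.mem_image.1 hz
      exact hs x hx x0 hx0 x0 hx0 hzY
    have h2 : (X.image (fun x => x + x0 + x0)).card = X.card := by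
      apply Finset.card_image_of_injective
      intro a b hab
      simpa using hab
    rw [← h2, ← Finset.card_union_of_disjoint h1, Nat.card_eq_fintype_card]
    exact Finset.card_le_univ _
  · have h0 : ∀ a ∈ X, ∀ b ∈ X, ∀ c ∈ Y, ∀ d ∈ -X, a + b + c + d ≠ 0 := by
      intro a ha b hb c hc d hd h0
      refine hs a ha b hb c hc ?_
      have h1 : a + b + c = -d := eq_neg_of_add_eq_zero_left h0
      rw [h1]
      exact Finset.mem_neg'.1 hd
    obtain ⟨g, n1, n2, n3, n4, hg, a1, a2, a3, a4, c1, c2, c3, c4, h5 | h5⟩ :=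
      K2_four h X X Y (-X) hX hX hY (hneg X hX) h0
    · rw [Finset.card_neg] at c4
      exact Or.inr (K2_31 a1 a2 a4 a3 c1 c2 c4 c3 h5.1 (by omega))
    · rw [Finset.card_neg] at h5
      left
      omega
  · have h0 : ∀ a ∈ X, ∀ b ∈ X, ∀ c ∈ Y, ∀ d ∈ -Y, a + b + c + d ≠ 0 := by
      intro a ha b hb c hc d hd h0
      refine hs a ha b hb c hc ?_
      have h1 : a + b + c = -d := eq_neg_of_add_eq_zero_left h0
      rw [h1]
      exact Finset.mem_neg'.1 hd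
    obtain ⟨g, n1, n2, n3, n4, hg, a1, a2, a3, a4, c1, c2, c3, c4, h5 | h5⟩ :=
      K2_four h X X Y (-Y) hX hX hY (hneg Y hY) h0
    · rw [Finset.card_neg] at c4
      exact Or.inr (K2_22 a1 a2 a3 a4 c1 c2 c3 c4 h5.1 h5.2)
    · rw [Finset.card_neg] at h5
      left
      omega

end Pool.Agent.H84R3
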