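import Pool.Agent.H84R3.Defs

set_option autoImplicit false

open Finset
open scoped Pointwise

namespace Pool.Agent.H84R3

theorem lb_hom (G : Type) [AddCommGroup G] [Fintype G]
    (h : AddMonoid.exponent G = 5 ∨ AddMonoid.exponent G = 10) :
    ∃ ψ : G →+ ZMod 5, Function.Surjective ψ := by
  haveI : Fact (Nat.Prime 5) := ⟨by norm_num⟩
  have h10 : ∀ x : G, (10 : ℕ) • x = 0 := by
    intro x
    have h1 := AddMonoid.exponent_nsmul_eq_zero (G := G) x
    rcases h with h | h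
    · rw [h] at h1
      have h2 : (10 : ℕ) • x = (2 : ℕ) • ((5 : ℕ) • x) := by
        rw [← mul_nsmul]
      rw [h2, h1, nsmul_zero]
    · rw [h] at h1
      exact h1
  have h2 : ∃ x : G, (2 : ℕ) • x ≠ 0 := by
    by_contra hcon
    push Not at hcon
    have h3 : AddMonoid.exponent G ∣ 2 := AddMonoid.exponent_dvd_of_forall_nsmul_eq_zero hcon
    have h4 := Nat.le_of_dvd (by norm_num) h3
    rcases h with h | h <;> omega
  let f : G →+ G := nsmulAddMonoidHom 2
  have hf : ∀ x, f x = (2 : ℕ) • x := fun x => rfl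
  have h5 : ∀ y : f.range, (5 : ℕ) • y = 0 := by
    rintro ⟨y, x, rfl⟩
    apply Subtype.ext
    change (5 : ℕ) • f x = 0
    rw [hf, ← mul_nsmul]
    exact h10 x
  letI : Module (ZMod 5) f.range := AddCommGroup.zmodModule h5
  obtain ⟨x0, hx0⟩ := h2
  have hne : (⟨f x0, x0, rfl⟩ : f.range) ≠ 0 := by
    intro h0
    exact hx0 (congrArg Subtype.val h0)
  have h6 : ∃ φ : Module.Dual (ZMod 5) f.range, φ ⟨f x0, x0, rfl⟩ ≠ 0 := by
    by_contra hcon
    push Not at hcon
    exact hne ((Module.forall_dual_apply_eq_zero_iff (ZMod 5) _).1 hcon)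
  obtain ⟨φ, hφ⟩ := h6
  let ψ : G →+ ZMod 5 := φ.toAddMonoidHom.comp f.rangeRestrict
  have hψ : ψ x0 ≠ 0 := hφ
  refine ⟨ψ, fun b => ⟨(b * (ψ x0)⁻¹).val • x0, ?_⟩⟩
  rw [map_nsmul, nsmul_eq_mul, ZMod.natCast_zmod_val, mul_assoc, inv_mul_cancel₀ hψ, mul_one]

theorem LB : LBStmt := by
  classical
  intro G _ _ h
  obtain ⟨ψ, hψ⟩ := lb_hom G h
  refine ⟨univ.filter (fun x => ψ x = 1), ?_, ?_⟩
  · intro x hx y hy z hz hxyz
    rw [mem_filter] at hx hy hz hxyz
    have h1 := hxyz.2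
    rw [map_add, map_add, hx.2, hy.2, hz.2] at h1
    exact absurd h1 (by decide)
  · have h1 : (univ : Finset G).card = ∑ b : ZMod 5, (univ.filter (fun x => ψ x = b)).card :=
      card_eq_sum_card_fiberwise (fun x _ => mem_univ _)
    have h2 : ∀ b : ZMod 5, (univ.filter (fun x => ψ x = b)).card =
        (univ.filter (fun x => ψ x = 1)).card := fun b =>
      AddMonoidHom.card_fiber_eq_of_mem_range ψ (hψ b) (hψ 1)
    rw [Nat.card_eq_fintype_card, ← card_univ, h1, sum_congr rfl fun b _ => h2 b, sum_const,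
      card_univ, ZMod.card, smul_eq_mul]

end Pool.Agent.H84R3
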