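import Pool.Agent.H84R3.Cyc2

set_option autoImplicit false

open Finset

namespace Pool.Agent.H84R3.Cyc

/-- product formula -/
theorem mu_prod (H L : Type) [AddCommGroup H] [Fintype H] [DecidableEq H] [AddCommGroup L]
    [Fintype L] [DecidableEq L] (k l : ℕ) (hlk : l < k) (hL : ∀ y : L, (k - l) • y = 0) :
    mu (H × L) k l = mu H k l * Fintype.card L := by
  have hk : 0 < k := lt_of_le_of_lt (Nat.zero_le l) hlk
  apply le_antisymm
  · obtain ⟨A, hA, e⟩ := exists_mu (G := H × L) (l := l) hk
    rw [← e]
    have hfib : ∀ y : L, (A.filter (fun x => x.2 = y)).card ≤ mu H k l := by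
      intro y
      set B : Finset H := Finset.univ.filter (fun h => (h, y) ∈ A) with hB
      have hBKL : KL k l B := by
        intro f hf g hg h
        refine hA (fun i => (f i, y)) (fun i => (Finset.mem_filter.mp (hf i)).2)
          (fun i => (g i, y)) (fun i => (Finset.mem_filter.mp (hg i)).2) ?_
        apply Prod.ext
        · simpa [Prod.fst_sum] using h
        · rw [Prod.snd_sum, Prod.snd_sum]
          simp only [Finset.sum_const, Finset.card_univ, Fintype.card_fin]
          have hk' : k = l + (k - l) := by omega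
          conv_lhs => rw [hk']
          rw [add_smul, hL, add_zero]
      refine le_trans ?_ (le_mu hBKL)
      apply Finset.card_le_card_of_injOn (fun x => x.1)
      · intro x hx
        rw [Finset.mem_coe, Finset.mem_filter] at hx
        rw [Finset.mem_coe, hB, Finset.mem_filter]
        refine ⟨Finset.mem_univ _, ?_⟩
        rw [← hx.2]
        exact hx.1
      · intro x hx x' hx' h
        rw [Finset.mem_coe, Finset.mem_filter] at hx hx'
        exact Prod.ext h (hx.2.trans hx'.2.symm)
    have := Finset.card_eq_sum_card_fiberwise (s := A) (t := (Finset.univ : Finset L))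
      (f := fun x => x.2) (by intro x _; exact Finset.mem_univ _)
    rw [this, mul_comm, ← Finset.card_univ, ← smul_eq_mul, ← Finset.sum_const]
    exact Finset.sum_le_sum (fun y _ => hfib y)
  · obtain ⟨B, hB, e⟩ := exists_mu (G := H) (l := l) hk
    rw [← e]
    have hKL : KL k l (B ×ˢ (Finset.univ : Finset L)) := by
      intro f hf g hg h
      refine hB (fun i => (f i).1) (fun i => (Finset.mem_product.mp (hf i)).1)
        (fun i => (g i).1) (fun i => (Finset.mem_product.mp (hg i)).1) ?_
      have := congrArg Prod.fst h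
      simpa [Prod.fst_sum] using this
    have := le_mu hKL
    rwa [Finset.card_product, Finset.card_univ] at this

/-- the exponent formula passes from `H` to `H × L` when `(k - l) L = 0` -/
theorem red (H L : Type) [AddCommGroup H] [Fintype H] [DecidableEq H] [AddCommGroup L]
    [Fintype L] [DecidableEq L] (κ' κ : ℕ) [NeZero κ'] [NeZero κ]
    (hκ' : AddMonoid.exponent H = κ') (hκ : AddMonoid.exponent (H × L) = κ)
    (k l : ℕ) (hlk : l < k) (hL : ∀ y : L, (k - l) • y = 0) :
    mu H k l * κ' = mu (ZMod κ') k l * Fintype.card H →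
    mu (H × L) k l * κ = mu (ZMod κ) k l * Fintype.card (H × L) := by
  have hk : 0 < k := lt_of_le_of_lt (Nat.zero_le l) hlk
  have hdvd : κ' ∣ κ := by
    rw [← hκ']
    apply AddMonoid.exponent_dvd_of_forall_nsmul_eq_zero
    intro x
    have := AddMonoid.exponent_nsmul_eq_zero ((x, 0) : H × L)
    rw [hκ] at this
    exact congrArg Prod.fst this
  have hZ : mu (ZMod κ') k l * κ ≤ mu (ZMod κ) k l * κ' := by
    have := lower (G := ZMod κ) κ' (ZMod.castHom hdvd (ZMod κ')).toAddMonoidHom
      (ZMod.castHom_surjective hdvd) (k := k) (l := l) hk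
    rwa [ZMod.card] at this
  obtain ⟨π, hπ⟩ := exists_surj κ hκ
  have hlow := lower κ π hπ (k := k) (l := l) hk
  have hpos' : 0 < κ' := Nat.pos_of_ne_zero (NeZero.ne κ')
  intro h
  apply le_antisymm
  · rw [mu_prod H L k l hlk hL, Fintype.card_prod]
    apply Nat.le_of_mul_le_mul_right _ hpos'
    calc mu H k l * Fintype.card L * κ * κ' = (mu H k l * κ') * (Fintype.card L * κ) := by ring
      _ = (mu (ZMod κ') k l * κ) * (Fintype.card H * Fintype.card L) := by rw [h]; ring
      _ ≤ (mu (ZMod κ) k l * κ') * (Fintype.card H * Fintype.card L) :=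
          Nat.mul_le_mul_right _ hZ
      _ = mu (ZMod κ) k l * (Fintype.card H * Fintype.card L) * κ' := by ring
  · exact hlow

end Pool.Agent.H84R3.Cyc
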