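import Pool.Agent.H84R3.Defs

set_option autoImplicit false

open Finset

namespace Pool.Agent.H84R3

open Classical in
theorem W1 : W1Stmt := by
  intro hM G _ _ h10 A hA
  set ψ : G →+ G := nsmulAddMonoidHom 5 with hψ
  have hψa : ∀ x, ψ x = (5 : ℕ) • x := fun x => rfl
  set R : Finset G := Finset.univ.image ψ with hR
  have hu5 : ∀ u ∈ R, (5 : ℕ) • u = u := by
    intro u hu
    obtain ⟨x, _, rfl⟩ := Finset.mem_image.1 hu
    rw [hψa, smul_smul]
    have h1 : ((5 * 5 : ℕ)) • x = (2 : ℕ) • ((10 : ℕ) • x) + (5 : ℕ) • x := by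
      rw [smul_smul, ← add_smul]
      norm_num
    rw [h1, h10, smul_zero, zero_add]
  have hu2 : ∀ u ∈ R, (2 : ℕ) • u = 0 := by
    intro u hu
    obtain ⟨x, _, rfl⟩ := Finset.mem_image.1 hu
    rw [hψa, smul_smul]
    exact h10 x
  have hker : ∀ x, x ∈ ψ.ker ↔ (5 : ℕ) • x = 0 := fun x => by
    rw [AddMonoidHom.mem_ker, hψa]
  have hsum : ∀ B : Finset G, B.card =
      ∑ u ∈ R, (Finset.univ.filter (fun g : ψ.ker => u + (g : G) ∈ B)).card := by
    intro B
    rw [Finset.card_eq_sum_card_fiberwise (f := ψ) (t := R)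
      (fun x _ => Finset.mem_coe.2 (Finset.mem_image_of_mem _ (Finset.mem_univ x)))]
    refine Finset.sum_congr rfl fun u hu => ?_
    symm
    refine Finset.card_bij (fun g _ => u + (g : G)) ?_ ?_ ?_
    · intro g hg
      rw [Finset.mem_filter] at hg ⊢
      refine ⟨hg.2, ?_⟩
      rw [hψa, smul_add, hu5 u hu, (hker _).1 g.2, add_zero]
    · intro g _ g' _ h
      exact Subtype.ext (add_left_cancel h)
    · intro x hx
      rw [Finset.mem_filter] at hx
      refine ⟨⟨x - u, ?_⟩, ?_, ?_⟩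
      · rw [hker, smul_sub, ← hψa x, hx.2, hu5 u hu, sub_self]
      · rw [Finset.mem_filter]
        refine ⟨Finset.mem_univ _, ?_⟩
        simpa using hx.1
      · simp
  haveI : Fact (Nat.Prime 5) := ⟨by norm_num⟩
  let _ : Module (ZMod 5) ψ.ker := AddCommGroup.zmodModule (n := 5) (fun x => by
    apply Subtype.ext
    exact (hker _).1 x.2)
  have hcard : Nat.card ψ.ker = 5 ^ (Module.finrank (ZMod 5) ψ.ker) := by
    rw [Nat.card_eq_fintype_card, Module.card_eq_pow_finrank (K := ZMod 5), ZMod.card]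
  have hle : ∀ u ∈ R, 5 * (Finset.univ.filter (fun g : ψ.ker => u + (g : G) ∈ A)).card ≤
      Nat.card ψ.ker := by
    intro u hu
    refine hM _ ψ.ker hcard _ ?_
    intro x hx y hy z hz hxyz
    rw [Finset.mem_filter] at hx hy hz hxyz
    have h1 := hA _ hx.2 _ hy.2 _ hz.2
    apply h1
    have h2 : u + (x : G) + (u + (y : G)) + (u + (z : G)) =
        u + ((x + y + z : ψ.ker) : G) + (2 : ℕ) • u := by
      rw [two_smul]
      push_cast
      abel
    rw [h2, hu2 u hu, add_zero]
    exact hxyz.2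
  have h1 := hsum A
  have h2 := hsum Finset.univ
  have h3 : ∀ u ∈ R, (Finset.univ.filter (fun g : ψ.ker => u + (g : G) ∈
      (Finset.univ : Finset G))).card = Nat.card ψ.ker := by
    intro u _
    rw [Nat.card_eq_fintype_card, ← Finset.card_univ]
    congr 1
    ext g
    simp
  rw [Finset.sum_congr rfl h3] at h2
  rw [Nat.card_eq_fintype_card, ← Finset.card_univ, h1, h2, Finset.mul_sum]
  exact Finset.sum_le_sum hle

end Pool.Agent.H84R3
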